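import Mathlib

/-! The finite check. -/

namespace Pool.Agent.Lib.MP_6adcb2_nt

def loop (P Q : ℕ → Bool) (f : ℕ) : ℕ → Bool :=
  Nat.rec (fun n => !P n) (fun _ r n => !P n || (Q n && r (Nat.succ n))) f

theorem loop_spec {P Q : ℕ → Bool} (hP : ∀ m, P (m + 1) = true → P m = true) {f n : ℕ}
    (h : loop P Q f n = true) : ∀ m, n ≤ m → P m = true → Q m = true := by
  have down : ∀ n m, n ≤ m → P m = true → P n = true := fun n m h => by
    induction h with
    | refl => exact id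
    | step _ ih => exact fun h => ih (hP _ h)
  induction f generalizing n with
  | zero => exact fun m h1 h2 => by simp [loop, down n m h1 h2] at h
  | succ f ih =>
    intro m h1 h2
    simp only [loop, down n m h1 h2, Bool.not_true, Bool.false_or, Bool.and_eq_true] at h
    rcases h1.eq_or_lt with rfl | h1
    exacts [h.1, ih h.2 m h1 h2]

def sg' (p e : ℕ) : ℕ := Nat.div (Nat.pred (Nat.pow p (Nat.succ e))) (Nat.pred p)

def inner (s b c W : ℕ) : Bool :=
  (!Nat.beq b 1 || Nat.ble W (Nat.pow s c)) &&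
    loop (fun p => Nat.blt (Nat.pow p (cond (Nat.beq b 1) 1 (Nat.pred b)))
      (Nat.mul 2 (Nat.mul W W))) (fun p =>
      loop (fun q => Nat.blt (Nat.pow q c) (Nat.mul (Nat.mul 2 W) p))
        (fun q => !Nat.beq (Nat.mod (Nat.mul (Nat.mul W (Nat.pow p b)) (Nat.pow q c))
          (Nat.mul (sg' p b) (sg' q c))) 0) 3000 (Nat.succ s)) 3000 (Nat.succ s)

def mid (s b c N : ℕ) : Bool :=
  !Nat.beq (Nat.mod N (Nat.pred s)) 0 ||
    (Nat.ble (Nat.mul 4 (Nat.pow (Nat.div N (Nat.pred s)) 3)) (Nat.pow s c) ||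
      inner s b c (Nat.div N (Nat.pred s)))

def chk : Bool := loop (fun a => Nat.blt a 40) (fun a =>
  loop (fun c => Nat.blt (Nat.mul (Nat.succ a) c) 40) (fun c =>
    loop (fun b => Nat.blt b 40) (fun b => mid (Nat.pow 2 (Nat.succ a)) b c
      (Nat.mul (Nat.pow 2 a) (Nat.mul (Nat.mul (Nat.succ a) (Nat.succ b)) (Nat.succ c)))) 40 1)
    40 1) 40 1

theorem chk_true : chk = true := by decide +kernel

theorem fin_check {a b c W p q : ℕ} (ha : 1 ≤ a) (hb : 1 ≤ b) (hc : 1 ≤ c) (h1 : (a + 1) * c < 40)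
    (h2 : b < 40) (hW : (2 ^ (a + 1) - 1) * W = 2 ^ a * ((a + 1) * (b + 1) * (c + 1)))
    (h3 : (2 ^ (a + 1)) ^ c < 4 * W ^ 3) :
    (b = 1 → W ≤ (2 ^ (a + 1)) ^ c) ∧ (2 ^ (a + 1) < p → 2 ^ (a + 1) < q →
      p ^ (if b = 1 then 1 else b - 1) < 2 * (W * W) → q ^ c < 2 * W * p →
      ¬(p ^ (b + 1) - 1) / (p - 1) * ((q ^ (c + 1) - 1) / (q - 1)) ∣ W * p ^ b * q ^ c) := by
  have M0 : 0 < 2 ^ (a + 1) - 1 := by
    have := Nat.one_le_two_pow (n := a)
    rw [pow_succ]; omega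
  have g1 := loop_spec (fun m hm => by simp only [Nat.blt_eq] at hm ⊢; omega) chk_true a ha
    (by rw [Nat.blt_eq]; nlinarith)
  have g2 := loop_spec (fun m hm => by
    simp only [Nat.blt_eq, Nat.mul_eq] at hm ⊢; nlinarith) g1 c hc (by rwa [Nat.blt_eq])
  have g3 := loop_spec (fun m hm => by simp only [Nat.blt_eq] at hm ⊢; omega) g2 b hb
    (by rwa [Nat.blt_eq])
  change mid (2 ^ (a + 1)) b c (2 ^ a * ((a + 1) * (b + 1) * (c + 1))) = true at g3
  rw [← hW] at g3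
  have e1 : Nat.mod ((2 ^ (a + 1) - 1) * W) (Nat.pred (2 ^ (a + 1))) = 0 := Nat.mul_mod_right _ _
  have e2 : Nat.div ((2 ^ (a + 1) - 1) * W) (Nat.pred (2 ^ (a + 1))) = W :=
    Nat.mul_div_cancel_left _ M0
  rw [mid, e1, e2, Nat.beq_refl, Bool.not_true, Bool.false_or, Bool.or_eq_true, Nat.ble_eq] at g3
  have g4 := g3.resolve_left (not_le.2 h3)
  rw [inner, Bool.and_eq_true] at g4
  refine ⟨fun e => by simpa [e] using g4.1, fun hp hq h4 h5 h6 => ?_⟩
  have g5 := loop_spec (fun m hm => by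
    simp only [Nat.blt_eq] at hm ⊢
    exact (Nat.pow_le_pow_left (Nat.le_succ m) _).trans_lt hm) g4.2 p hp (by
      rw [Nat.blt_eq]
      by_cases e : b = 1
      · simpa [e] using h4
      · rw [show Nat.beq b 1 = false from Bool.eq_false_iff.2 fun h => e (Nat.eq_of_beq_eq_true h)]
        simpa [e] using h4)
  have g6 := loop_spec (fun m hm => by
    simp only [Nat.blt_eq] at hm ⊢
    exact (Nat.pow_le_pow_left (Nat.le_succ m) _).trans_lt hm) g5 q hq (by rwa [Nat.blt_eq])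
  have e3 : Nat.mod (Nat.mul (Nat.mul W (Nat.pow p b)) (Nat.pow q c))
    (Nat.mul (sg' p b) (sg' q c)) = 0 := Nat.mod_eq_zero_of_dvd h6
  simp only [e3] at g6
  exact absurd g6 (by decide)

end Pool.Agent.Lib.MP_6adcb2_nt
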