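import Pool.Agent.Lib.MP_6adcb2_nt.Main
import Pool.Agent.Lib.MP_6adcb2_nt.Chk

/-! An even deficient harmonic number has at least four prime factors. -/

namespace Pool.Agent.Lib.MP_6adcb2_nt

open Finset

theorem sg_eq {p : ℕ} (hp : 2 ≤ p) (e : ℕ) : (p ^ (e + 1) - 1) / (p - 1) = sg p e := by
  rw [← sg_mul (by omega) e, Nat.add_sub_cancel, Nat.mul_div_cancel _ (by omega)]

theorem pow6 {y : ℕ} (h : 40 ≤ y) : 10 * y ^ 6 ≤ 2 ^ y := by
  induction h with
  | refl => norm_num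
  | @step y h ih =>
    have h1 : 40 * (y + 1) ≤ 41 * y := by simp only [Nat.le_eq] at h; omega
    have h2 := Nat.pow_le_pow_left h1 6
    rw [mul_pow, mul_pow] at h2
    simp only [Nat.succ_eq_add_one, pow_succ 2 y]
    omega

theorem sg_cop (p e : ℕ) : (sg p e).Coprime p := by
  rw [sg, sum_range_succ']
  simp only [pow_succ, ← sum_mul, pow_zero]
  simp

theorem sg_split (q : ℕ) {s c : ℕ} (h : s ≤ c) : ∃ t, sg q c = sg q s + q ^ (s + 1) * t := by
  obtain ⟨i, rfl⟩ := Nat.exists_eq_add_of_le h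
  refine ⟨∑ j ∈ range i, q ^ j, ?_⟩
  rw [sg, sg, add_right_comm, sum_range_add, mul_sum]
  simp only [pow_add]

theorem pow_le_two {q p s c w1 w2 : ℕ} (hq : 3 ≤ q) (hs : s ≤ c) (w0 : 0 < w2)
    (e1 : sg q c = w2 * p) (e3 : p + 1 = w1 * q ^ s) : q ^ s ≤ 2 * w2 := by
  rcases s with _ | s
  · rw [pow_zero]; omega
  · obtain ⟨t, ht⟩ := sg_split q (show s ≤ c by omega)
    have h1 : sg q s + w2 + q ^ (s + 1) * t = q ^ (s + 1) * (w1 * w2) := by
      rw [add_right_comm, ← ht, e1, ← mul_add_one, e3]; ring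
    have h2 : q ^ (s + 1) ∣ sg q s + w2 := (Nat.dvd_add_left (Dvd.intro t rfl)).1 ⟨_, h1⟩
    have h3 := Nat.le_of_dvd (by omega) h2
    have h4 := sg_mul (show 1 ≤ q by omega) s
    have h5 := Nat.mul_le_mul_left (sg q s) (show 2 ≤ q - 1 by omega)
    omega

theorem lt_forty {W y b : ℕ} (W1 : 3 * W ≤ 4 * y * (b + 1)) (E3 : 2 ^ y < 4 * W ^ 3)
    (E4 : 2 ^ b < 4 * y * (b + 1)) : y < 40 ∧ b < 40 := by
  by_contra h
  rcases le_total y (b + 1) with h1 | h1
  · have h2 := pow6 (y := b + 1) (by omega)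
    have h3 := Nat.mul_le_mul_right (b + 1) (Nat.mul_le_mul_left 4 h1)
    have h4 : (b + 1) ^ 2 ≤ (b + 1) ^ 6 := Nat.pow_le_pow_right (by omega) (by norm_num)
    rw [pow_succ 2 b] at h2
    rw [mul_assoc 4 (b + 1), ← sq] at h3
    omega
  · have h2 := pow6 (y := y) (by omega)
    have h3 := Nat.pow_le_pow_left (W1.trans (Nat.mul_le_mul_left _ h1)) 3
    rw [mul_assoc, ← sq, mul_pow, mul_pow, ← pow_mul, show 2 * 3 = 6 from rfl] at h3
    omega

theorem sq_aux {W y x : ℕ} (W1 : 3 * W ≤ y) (h1 : x ^ 2 < 2 * W ^ 2) : x * 2 < y ∨ y = 0 := by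
  by_contra h
  have h2 : 3 * W ≤ x * 2 := by omega
  have h3 := Nat.pow_le_pow_left h2 2
  rw [mul_pow, mul_pow] at h3
  omega

theorem two_prime {A b c W p q : ℕ} (hA : 2 ≤ A) (hp : p.Prime) (hq : q.Prime) (hpq : p ≠ q)
    (pA : 2 ^ A < p) (qA : 2 ^ A < q) (hb : 1 ≤ b) (hc : 1 ≤ c)
    (hW : (2 ^ A - 1) * W = 2 ^ (A - 1) * (A * (b + 1) * (c + 1)))
    (hd : sg p b * sg q c ∣ W * p ^ b * q ^ c) (hle : q ^ (c + 1) ≤ p ^ (b + 1)) : False := by
  obtain ⟨a, rfl⟩ : ∃ a, A = a + 1 := ⟨A - 1, by omega⟩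
  have a2 : 2 ≤ 2 ^ a := Nat.le_self_pow (by omega) 2
  have M0 : 0 < 2 ^ (a + 1) - 1 := by rw [pow_succ]; omega
  have W0 : 0 < W := Nat.pos_of_mul_pos_left (hW.symm ▸ (by positivity :
    0 < 2 ^ (a + 1 - 1) * ((a + 1) * (b + 1) * (c + 1))))
  have W1 : 3 * W ≤ 4 * ((a + 1) * c) * (b + 1) := by
    have h1 : 2 ^ a * (3 * W) ≤ 2 ^ a * (2 * ((a + 1) * (b + 1) * (c + 1))) := by
      have : 3 * 2 ^ a ≤ 2 * (2 ^ (a + 1) - 1) := by rw [pow_succ]; omega
      have := Nat.mul_le_mul_right W this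
      simp only [Nat.add_sub_cancel] at hW
      nlinarith
    have h2 := Nat.le_of_mul_le_mul_left h1 (by positivity)
    have h3 := Nat.mul_le_mul_left ((a + 1) * (b + 1)) (show c + 1 ≤ 2 * c by omega)
    nlinarith
  have p0 := hp.pos
  have q0 := hq.pos
  obtain ⟨g1, w2, p', c1, e1, e2⟩ : ∃ g w p', w.Coprime p' ∧ sg q c = w * g ∧ p ^ b = p' * g := by
    obtain ⟨w, p', h⟩ := Nat.exists_coprime (sg q c) (p ^ b)
    exact ⟨_, w, p', h⟩
  obtain ⟨g2, w1, q', c2, e3, e4⟩ : ∃ g w q', w.Coprime q' ∧ sg p b = w * g ∧ q ^ c = q' * g := by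
    obtain ⟨w, p', h⟩ := Nat.exists_coprime (sg p b) (q ^ c)
    exact ⟨_, w, p', h⟩
  have l1 := lt_sg (p := p) hb
  have l2 := lt_sg (p := q) hc
  have g10 : 0 < g1 := Nat.pos_of_mul_pos_left (e2 ▸ pow_pos p0 b)
  have g20 : 0 < g2 := Nat.pos_of_mul_pos_left (e4 ▸ pow_pos q0 c)
  have w10 : 0 < w1 := Nat.pos_of_mul_pos_right (e3 ▸ (Nat.zero_le _).trans_lt l1)
  have w20 : 0 < w2 := Nat.pos_of_mul_pos_right (e1 ▸ (Nat.zero_le _).trans_lt l2)
  have hw : w1 * w2 ≤ W := by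
    have c3 : w1.Coprime p' := (((sg_cop p b).pow_right b).coprime_dvd_left
      ⟨_, e3⟩).coprime_dvd_right ⟨_, e2⟩
    have c4 : w2.Coprime q' := (((sg_cop q c).pow_right c).coprime_dvd_left
      ⟨_, e1⟩).coprime_dvd_right ⟨_, e4⟩
    refine Nat.le_of_dvd W0 (((c3.mul_left c1).mul_right (c2.mul_left c4)).dvd_of_dvd_mul_right
      (Nat.dvd_of_mul_dvd_mul_right (Nat.mul_pos g10 g20) ?_))
    rw [e1, e2, e3, e4] at hd
    convert hd using 1 <;> ring
  have s1 := sg_mul hp.one_le b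
  have s2 := sg_mul hq.one_le c
  have hg : g1 * g2 ≤ 2 * p ^ (b + 1) := by
    have c3 : g1.Coprime g2 := ((Nat.coprime_pow_primes b c hp hq hpq).coprime_dvd_left
      (Dvd.intro_left _ e2.symm)).coprime_dvd_right (Dvd.intro_left _ e4.symm)
    refine (Nat.le_of_dvd (n := p ^ (b + 1) + sg q c * (q - 1)) (by positivity)
      (c3.mul_dvd_of_dvd_of_dvd ?_ ?_)).trans (by omega)
    · exact dvd_add (pow_succ p b ▸ (Dvd.intro_left _ e2.symm).mul_right _)
        ((Dvd.intro_left _ e1.symm).mul_right _)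
    · rw [show p ^ (b + 1) + sg q c * (q - 1) = q ^ (c + 1) + sg p b * (p - 1) by omega]
      exact dvd_add (pow_succ q c ▸ (Dvd.intro_left _ e4.symm).mul_right _)
        ((Dvd.intro_left _ e3.symm).mul_right _)
  have E1 : q ^ c < 2 * W * p := by
    refine Nat.lt_of_mul_lt_mul_left (a := p ^ b) ((Nat.mul_lt_mul'' l1 l2).trans_le ?_)
    have := Nat.mul_le_mul hw hg
    rw [e1, e3]
    rw [pow_succ] at this
    linarith
  have l3 : (2 ^ (a + 1)) ^ c < q ^ c := Nat.pow_lt_pow_left qA (by omega)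
  have hw1 : w1 ≤ W := (Nat.le_mul_of_pos_right _ w20).trans hw
  have hw2 : w2 ≤ W := (Nat.le_mul_of_pos_left _ w10).trans hw
  have E2 : p ^ max (b - 1) 1 < 2 * W ^ 2 ∨ (b = 1 ∧ (2 ^ (a + 1)) ^ c < W) := by
    rcases hb.eq_or_lt with rfl | hb
    · rw [pow_one] at e2
      rcases (Nat.dvd_prime hp).1 (Dvd.intro_left _ e2.symm) with rfl | rfl
      · exact .inr ⟨rfl, by omega⟩
      · left
        have e5 : sg g1 1 = g1 + 1 := by simp [sg, sum_range_succ, add_comm]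
        have h1 : g2 ≤ 2 * w2 := by
          obtain ⟨s, hs, rfl⟩ := (Nat.dvd_prime_pow hq).1 (Dvd.intro_left _ e4.symm)
          exact pow_le_two (by rw [pow_succ] at qA; omega) hs w20 e1 (e5 ▸ e3)
        have h2 := Nat.mul_le_mul_left w1 h1
        have h3 : W ≤ W ^ 2 := Nat.le_self_pow two_ne_zero W
        rw [mul_left_comm] at h2
        simp only [Nat.sub_self, zero_le, sup_of_le_right, pow_one]
        omega
    · left
      obtain ⟨b, rfl⟩ : ∃ b', b = b' + 1 := ⟨b - 1, by omega⟩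
      rw [Nat.add_sub_cancel, max_eq_left (by omega)]
      refine Nat.lt_of_mul_lt_mul_right (a := p) ?_
      have h1 := Nat.mul_le_mul hw1 ((Nat.le_of_dvd (by positivity)
        (Dvd.intro_left _ e4.symm)).trans E1.le)
      rw [← pow_succ]
      exact (l1.trans_le (e3 ▸ h1)).trans_eq (by ring)
  have E3 : (2 ^ (a + 1)) ^ c < 4 * W ^ 3 := by
    rcases E2 with h | h
    · have := Nat.mul_le_mul_left (2 * W) ((Nat.le_self_pow (n := max (b - 1) 1) (by omega) p).trans h.le)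
      exact ((l3.trans E1).trans_le this).trans_eq (by ring)
    · exact h.2.trans_le ((Nat.le_self_pow (by norm_num) W).trans (Nat.le_mul_of_pos_left _ (by norm_num)))
  have E4 : 2 ^ b < 4 * ((a + 1) * c) * (b + 1) := by
    rcases E2 with h | h
    · have h1 : (2 ^ 2) ^ (b - 1) ≤ p ^ max (b - 1) 1 := (Nat.pow_le_pow_left
        (by rw [pow_succ 2 a] at pA; omega) _).trans (Nat.pow_le_pow_right p0 (le_max_left _ _))
      obtain ⟨b, rfl⟩ : ∃ b', b = b' + 1 := ⟨b - 1, by omega⟩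
      rw [Nat.add_sub_cancel, ← pow_mul, mul_comm, pow_mul] at h1
      rw [Nat.add_sub_cancel] at h
      rw [pow_succ]
      exact (sq_aux W1 (h1.trans_lt h)).resolve_right (by omega)
    · have : 0 < (a + 1) * c := Nat.mul_pos a.succ_pos hc
      rw [h.1]
      clear * - this
      omega
  rw [← pow_mul] at E3
  have E5 := lt_forty W1 E3 E4
  obtain ⟨h1, h2⟩ := fin_check (p := p) (q := q) (by omega) hb hc E5.1 E5.2 hW (by rwa [← pow_mul])
  refine h2 pA qA ?_ E1 (by rwa [sg_eq hp.two_le, sg_eq hq.two_le])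
  have h3 := E2.resolve_right fun h => (h1 h.1).not_gt h.2
  rw [← sq]
  split_ifs with e
  · simpa [e] using h3
  · rwa [max_eq_left (by omega)] at h3

theorem prime_big {m M p : ℕ} (hm : 0 < m) (hp : p.Prime) (hd : p ∣ m)
    (h : M * ∑ d ∈ m.divisors, d < (M + 1) * m) : M < p := by
  obtain ⟨c, rfl⟩ := hd
  have c0 : 0 < c := Nat.pos_of_mul_pos_left hm
  have h1 : c ≠ p * c := ((Nat.lt_mul_iff_one_lt_left c0).2 hp.one_lt).ne
  have h2 : ∑ d ∈ {c, p * c}, d ≤ ∑ d ∈ (p * c).divisors, d := sum_le_sum_of_subset fun d hd => by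
    rw [mem_insert, mem_singleton] at hd
    rcases hd with rfl | rfl
    exacts [Nat.mem_divisors.2 ⟨Dvd.intro_left _ rfl, hm.ne'⟩, Nat.mem_divisors_self _ hm.ne']
  rw [sum_pair h1] at h2
  have h3 := (Nat.mul_le_mul_left M h2).trans_lt h
  rw [mul_add, add_mul, one_mul] at h3
  exact Nat.lt_of_mul_lt_mul_right (a := c) (by omega)

theorem even_four {n : ℕ} (hn : 0 < n) (he : Even n)
    (hH : (∑ d ∈ n.divisors, d) ∣ n * n.divisors.card) (hd : ∑ d ∈ n.divisors, d < 2 * n) :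
    4 ≤ n.primeFactors.card := by
  obtain ⟨a, m, hm, rfl⟩ := Nat.exists_eq_two_pow_mul_odd hn.ne'
  have m0 := hm.pos
  have a1 : 1 ≤ a := Nat.pos_of_ne_zero fun h =>
    Nat.not_even_iff_odd.2 hm (by simpa [h] using he)
  have hc : (2 ^ a).Coprime m := Nat.Coprime.pow_left _ (Nat.coprime_two_left.2 hm)
  obtain ⟨M, hM⟩ : ∃ M, M = sg 2 a := ⟨_, rfl⟩
  have hM1 : M + 1 = 2 ^ (a + 1) := by simpa [hM] using sg_mul (p := 2) one_le_two a
  have hM2 : 2 ^ a ≤ M := hM ▸ le_sg 2 a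
  have M0 : 0 < M := lt_of_lt_of_le (by positivity) hM2
  have hs : ∑ d ∈ (2 ^ a * m).divisors, d = M * ∑ d ∈ m.divisors, d := by
    rw [hc.sum_divisors_mul, Nat.sum_divisors_prime_pow Nat.prime_two, hM, sg]
  have ht : (2 ^ a * m).divisors.card = (a + 1) * m.divisors.card := by
    rw [hc.card_divisors_mul, Nat.divisors_prime_pow Nat.prime_two, card_map, card_range]
  have hd' : M * ∑ d ∈ m.divisors, d < (M + 1) * m := by
    rwa [← hs, hM1, pow_succ', mul_assoc]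
  have big : ∀ p ∈ m.primeFactors, 2 ^ (a + 1) < p := fun p hp => by
    have h1 := prime_big m0 (Nat.prime_of_mem_primeFactors hp) (Nat.dvd_of_mem_primeFactors hp) hd'
    obtain ⟨c, hc⟩ := hm.of_dvd_nat (Nat.dvd_of_mem_primeFactors hp)
    rw [pow_succ] at hM1 ⊢
    omega
  have hc2 : M.Coprime (2 ^ a) := Nat.Coprime.pow_right _ (Nat.coprime_two_right.2
    ⟨2 ^ a - 1, by have := Nat.one_le_two_pow (n := a); rw [pow_succ] at hM1; omega⟩)
  rw [hs, ht] at hH
  obtain ⟨t, ht'⟩ : M ∣ (a + 1) * m.divisors.card :=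
    (Nat.Coprime.mul_right hc2 (cop m0 M0 hd')).dvd_of_dvd_mul_left ((Dvd.intro _ rfl).trans hH)
  have hW : (2 ^ (a + 1) - 1) * (2 ^ a * t) = 2 ^ a * ((a + 1) * m.divisors.card) := by
    rw [← hM1, ht', Nat.add_sub_cancel, mul_left_comm]
  have hD : ∑ d ∈ m.divisors, d ∣ 2 ^ a * t * m := Nat.dvd_of_mul_dvd_mul_left M0
    (hH.trans (by rw [ht']; exact ⟨1, by ring⟩))
  rw [hc.primeFactors_mul, card_union_of_disjoint hc.disjoint_primeFactors,
    Nat.primeFactors_prime_pow (by omega) Nat.prime_two, card_singleton]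
  have e1 : ∏ p ∈ m.primeFactors, p ^ m.factorization p = m :=
    Nat.prod_factorization_pow_eq_self m0.ne'
  have e2 : ∑ d ∈ m.divisors, d = ∏ p ∈ m.primeFactors, sg p (m.factorization p) :=
    Nat.sum_divisors m0.ne'
  have pr : ∀ p ∈ m.primeFactors, p.Prime ∧ 1 ≤ m.factorization p := fun p hp =>
    ⟨Nat.prime_of_mem_primeFactors hp, (Nat.prime_of_mem_primeFactors hp).factorization_pos_of_dvd
      m0.ne' (Nat.dvd_of_mem_primeFactors hp)⟩
  rw [Nat.card_divisors m0.ne'] at hW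
  rw [e2] at hD
  generalize 2 ^ a * t = W at *
  generalize m.factorization = e at *
  generalize m.primeFactors = F at *
  have W1 : ∀ {x : ℕ}, (2 ^ (a + 1) - 1) * W = 2 ^ a * x → W ≤ x := fun h =>
    Nat.le_of_mul_le_mul_left ((Nat.mul_le_mul_right W (show 2 ^ a ≤ 2 ^ (a + 1) - 1 by omega)).trans
      h.le) (by positivity)
  by_contra h4
  obtain h | h | h : F.card = 0 ∨ F.card = 1 ∨ F.card = 2 := by omega
  · obtain rfl := card_eq_zero.1 h
    rw [prod_empty, mul_one] at hW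
    have h1 := Nat.le_of_dvd a.succ_pos ((Nat.Coprime.dvd_of_dvd_mul_left
      (by rwa [← hM1, Nat.add_sub_cancel]) (Dvd.intro _ hW)))
    have h2 := two_mul_le (a + 1)
    omega
  · obtain ⟨p, rfl⟩ := card_eq_one.1 h
    simp only [prod_singleton] at hW hD e1
    obtain ⟨hp, hb⟩ := pr p (mem_singleton_self p)
    have W0 : 0 < W := Nat.pos_of_mul_pos_left (hW.symm ▸ (by positivity :
      0 < 2 ^ a * ((a + 1) * (e p + 1))))
    rw [← e1] at hD
    have h1 := Nat.le_of_dvd W0 (((sg_cop p _).pow_right _).dvd_of_dvd_mul_right hD)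
    have h2 := lt_sg (p := p) hb
    have h3 := Nat.pow_le_pow_left (big p (mem_singleton_self p)).le (e p)
    have h5 := two_mul_le ((a + 1) * e p)
    have h6 := (W1 hW).trans (Nat.mul_le_mul_left (a + 1) (show e p + 1 ≤ 2 * e p by omega))
    rw [← pow_mul] at h3
    rw [mul_left_comm] at h6
    omega
  · obtain ⟨p, q, hpq, rfl⟩ := card_eq_two.1 h
    simp only [prod_pair hpq] at hW hD e1
    obtain ⟨hp, hb⟩ := pr p (by simp)
    obtain ⟨hq, hc⟩ := pr q (by simp)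
    have bp := big p (by simp)
    have bq := big q (by simp)
    rw [← e1] at hD
    rcases le_total (q ^ (e q + 1)) (p ^ (e p + 1)) with h | h
    · exact two_prime (W := W) (by omega) hp hq hpq bp bq hb hc (by rw [hW]; simp [mul_assoc])
        (by rwa [mul_assoc]) h
    · exact two_prime (W := W) (by omega) hq hp hpq.symm bq bp hc hb
        (by rw [hW, mul_comm (e p + 1)]; simp [mul_assoc])
        (by rwa [mul_comm, mul_right_comm, mul_assoc]) h

end Pool.Agent.Lib.MP_6adcb2_nt
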