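import Mathlib

/-! The gap principle for the abundancy index of an odd number. -/

namespace Pool.Agent.Lib.MP_6adcb2_nt

open Finset

theorem weier {ι : Type} (s : Finset ι) (x : ι → ℝ) (h0 : ∀ i ∈ s, 0 ≤ x i) (h1 : ∀ i ∈ s, x i ≤ 1) :
    1 - ∑ i ∈ s, x i ≤ ∏ i ∈ s, (1 - x i) := by
  classical
  induction s using Finset.induction_on with
  | empty => simp
  | insert a s ha ih =>
    rw [sum_insert ha, prod_insert ha]
    have h2 := ih (fun i hi => h0 i (mem_insert_of_mem hi)) fun i hi => h1 i (mem_insert_of_mem hi)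
    have h3 := h0 a (mem_insert_self _ _)
    have h4 := h1 a (mem_insert_self _ _)
    have h5 : 0 ≤ ∑ i ∈ s, x i := sum_nonneg fun i hi => h0 i (mem_insert_of_mem hi)
    nlinarith [mul_le_mul_of_nonneg_left h2 (sub_nonneg.2 h4)]

theorem odd_prod {ι : Type} (s : Finset ι) (x : ι → ℕ) : Odd (∏ i ∈ s, x i) ↔ ∀ i ∈ s, Odd (x i) := by
  classical
  induction s using Finset.induction_on with
  | empty => simp
  | insert a s ha ih => rw [prod_insert ha, Nat.odd_mul, ih, forall_mem_insert]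

/-- the sum of the divisors of `p ^ e` -/
def sg (p e : ℕ) : ℕ := ∑ i ∈ range (e + 1), p ^ i

theorem sg_mul {p : ℕ} (hp : 1 ≤ p) (e : ℕ) : sg p e * (p - 1) + 1 = p ^ (e + 1) := by
  obtain ⟨q, rfl⟩ := Nat.exists_eq_add_of_le' hp
  simpa [sg] using geom_sum_mul_add q (e + 1)

theorem le_sg (p e : ℕ) : p ^ e ≤ sg p e :=
  single_le_sum (f := fun i => p ^ i) (fun _ _ => Nat.zero_le _) (self_mem_range_succ e)

theorem lt_sg {p e : ℕ} (he : 1 ≤ e) : p ^ e < sg p e := by
  obtain ⟨e, rfl⟩ := Nat.exists_eq_add_of_le' he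
  have : 0 < ∑ i ∈ range (e + 1), p ^ i := by rw [sum_range_succ']; simp
  rw [sg, sum_range_succ]
  omega

section
variable {F : Finset ℕ} {e : ℕ → ℕ} {u v k : ℕ}

theorem step (hF : ∀ p ∈ F, 3 ≤ p ∧ Odd p ∧ 1 ≤ e p) (hk : F.card ≤ k) (hv : 0 < v)
    (h : v * ∏ p ∈ F, sg p (e p) = u * ∏ p ∈ F, p ^ e p) {S T : Finset ℕ} (hS : S ⊆ F) (hT : T ⊆ F)
    (hST : Disjoint S T) (hne : S ≠ F) :
    (∃ p ∈ F, p ∉ S ∧ p ∉ T ∧ p ≤ 2 * k * (v * (∏ p ∈ S, sg p (e p)) * ∏ p ∈ T, p)) ∨
      ∃ p ∈ T, p ^ (e p + 1) ≤ k * (v * (∏ p ∈ S, sg p (e p)) * ∏ p ∈ T, p) := by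
  classical
  set U := F \ (S ∪ T) with hU
  have hUF : U ⊆ F := sdiff_subset
  have split : ∀ g : ℕ → ℕ, ∏ p ∈ F, g p = (∏ p ∈ S, g p) * (∏ p ∈ T, g p) * ∏ p ∈ U, g p := by
    intro g
    rw [← prod_union hST, mul_comm, prod_sdiff (union_subset hS hT)]
  set w := v * (∏ p ∈ S, sg p (e p)) * ∏ p ∈ T, p with hw
  set N := u * (∏ p ∈ S, p ^ e p) * ∏ p ∈ T, (p - 1) with hN
  have sp : ∀ p, 0 < sg p (e p) := fun p => by rw [sg, sum_range_succ']; simp
  have w0 : 0 < w := Nat.mul_pos (Nat.mul_pos hv (prod_pos fun p _ => sp p))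
    (prod_pos fun p hp => by have := (hF p (hT hp)).1; omega)
  have key : N * ((∏ p ∈ T, p ^ (e p + 1)) * ∏ p ∈ U, p ^ e p) =
      w * ((∏ p ∈ T, sg p (e p) * (p - 1)) * ∏ p ∈ U, sg p (e p)) := by
    rw [split, split] at h
    simp only [pow_succ, prod_mul_distrib, hw, hN]
    calc _ = u * ((∏ p ∈ S, p ^ e p) * (∏ p ∈ T, p ^ e p) * ∏ p ∈ U, p ^ e p) *
          ((∏ p ∈ T, p) * ∏ p ∈ T, (p - 1)) := by ring
      _ = _ := by rw [← h]; ring
  have pT : (0 : ℝ) < ∏ p ∈ T, (p : ℝ) ^ (e p + 1) :=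
    prod_pos fun p hp => by have := (hF p (hT hp)).1; positivity
  have pU : (0 : ℝ) < ∏ p ∈ U, (sg p (e p) : ℝ) := prod_pos fun p _ => by exact_mod_cast sp p
  set X : ℝ := ∏ p ∈ T, (1 - 1 / (p : ℝ) ^ (e p + 1)) with hX
  set Y : ℝ := ∏ p ∈ U, (p : ℝ) ^ e p / sg p (e p) with hY
  have keyR : (N : ℝ) * Y = w * X := by
    have h1 : X * ∏ p ∈ T, (p : ℝ) ^ (e p + 1) = ∏ p ∈ T, ((sg p (e p) * (p - 1) : ℕ) : ℝ) := by
      rw [hX, ← prod_mul_distrib]
      refine prod_congr rfl fun p hp => ?_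
      have h2 := (hF p (hT hp)).1
      have h3 : ((sg p (e p) * (p - 1) : ℕ) : ℝ) + 1 = (p : ℝ) ^ (e p + 1) := by
        exact_mod_cast sg_mul (by omega) (e p)
      have : (0 : ℝ) < (p : ℝ) ^ (e p + 1) := by positivity
      rw [sub_mul, one_div_mul_cancel this.ne']
      linarith
    have h2 : Y * ∏ p ∈ U, (sg p (e p) : ℝ) = ∏ p ∈ U, (p : ℝ) ^ e p := by
      rw [hY, ← prod_mul_distrib]
      exact prod_congr rfl fun p _ => div_mul_cancel₀ _ (by exact_mod_cast (sp p).ne')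
    have h3 : (N : ℝ) * ((∏ p ∈ T, (p : ℝ) ^ (e p + 1)) * ∏ p ∈ U, (p : ℝ) ^ e p) =
        w * ((∏ p ∈ T, ((sg p (e p) * (p - 1) : ℕ) : ℝ)) * ∏ p ∈ U, (sg p (e p) : ℝ)) := by
      exact_mod_cast key
    rw [← h1, ← h2] at h3
    refine mul_right_cancel₀ (mul_pos pT pU).ne' ?_
    linarith
  have X1 : X ≤ 1 := prod_le_one (fun p hp => by
      have := (hF p (hT hp)).1
      rw [sub_nonneg, div_le_one (by positivity)]
      exact one_le_pow₀ (by norm_cast; omega)) fun p _ => by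
    rw [sub_le_self_iff]; positivity
  have Y1 : Y ≤ 1 := prod_le_one (fun p _ => by positivity) fun p _ => by
    rw [div_le_one (by exact_mod_cast sp p)]
    exact_mod_cast le_sg p (e p)
  have wR : (1 : ℝ) ≤ w := by exact_mod_cast w0
  have kU : (U.card : ℝ) ≤ k := by exact_mod_cast (card_le_card hUF).trans hk
  have kT : (T.card : ℝ) ≤ k := by exact_mod_cast (card_le_card hT).trans hk
  have k0 : (0 : ℝ) ≤ k := Nat.cast_nonneg k
  rcases lt_trichotomy N w with hlt | heq | hgt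
  · right
    by_contra hc
    push Not at hc
    have h1 : (N : ℝ) + 1 ≤ w := by exact_mod_cast hlt
    have h2 := weier T (fun p => 1 / (p : ℝ) ^ (e p + 1)) (fun p _ => by positivity) fun p hp => by
      have := (hF p (hT hp)).1
      rw [div_le_one (by positivity)]
      exact one_le_pow₀ (by norm_cast; omega)
    have h3 : ∑ p ∈ T, 1 / (p : ℝ) ^ (e p + 1) ≤ T.card • (1 / ((k : ℝ) * w + 1)) :=
      sum_le_card_nsmul _ _ _ fun p hp => one_div_le_one_div_of_le (by positivity)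
        (by exact_mod_cast hc p hp)
    have h4 : (T.card : ℝ) * (1 / ((k : ℝ) * w + 1)) * w < 1 := by
      rw [mul_one_div, div_mul_eq_mul_div, div_lt_one (by positivity)]
      nlinarith
    rw [nsmul_eq_mul] at h3
    have h5 := mul_le_mul_of_nonneg_left Y1 (Nat.cast_nonneg (α := ℝ) N)
    nlinarith
  · exfalso
    rw [heq] at key
    have key' := Nat.eq_of_mul_eq_mul_left w0 key
    rcases T.eq_empty_or_nonempty with rfl | ⟨t, ht⟩
    · simp only [prod_empty, one_mul] at key'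
      refine absurd key' (prod_lt_prod_of_nonempty (fun p hp => ?_) (fun p hp => ?_) ?_).ne
      · have := (hF p (hUF hp)).1
        positivity
      · exact lt_sg (hF p (hUF hp)).2.2
      · rw [hU, union_empty, sdiff_nonempty]
        exact fun h => hne (Subset.antisymm hS h)
    · have h1 : Odd ((∏ p ∈ T, p ^ (e p + 1)) * ∏ p ∈ U, p ^ e p) :=
        ((odd_prod _ _).2 fun p hp => (hF p (hT hp)).2.1.pow).mul
          ((odd_prod _ _).2 fun p hp => (hF p (hUF hp)).2.1.pow)
      rw [key', Nat.odd_mul, odd_prod] at h1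
      have h2 := (Nat.odd_mul.1 (h1.1 t ht)).2
      obtain ⟨h3, ⟨c, h4⟩, -⟩ := hF t (hT ht)
      obtain ⟨d, h5⟩ := h2
      omega
  · left
    by_contra hc
    push Not at hc
    have h1 : (w : ℝ) + 1 ≤ N := by exact_mod_cast hgt
    have h2 := weier U (fun p => 1 / (p : ℝ)) (fun p _ => by positivity) fun p hp => by
      have := (hF p (hUF hp)).1
      rw [div_le_one (by positivity)]
      norm_cast; omega
    have h3 : ∑ p ∈ U, 1 / (p : ℝ) ≤ U.card • (1 / (2 * (k : ℝ) * w + 1)) :=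
      sum_le_card_nsmul _ _ _ fun p hp => one_div_le_one_div_of_le (by positivity) (by
        have := mem_sdiff.1 hp
        exact_mod_cast hc p this.1 (fun h => this.2 (mem_union_left _ h))
          fun h => this.2 (mem_union_right _ h))
    have h4 : (U.card : ℝ) * (1 / (2 * (k : ℝ) * w + 1)) * (w + 1) < 1 := by
      rw [mul_one_div, div_mul_eq_mul_div, div_lt_one (by positivity)]
      nlinarith
    have h5 : ∏ p ∈ U, (1 - 1 / (p : ℝ)) ≤ Y := prod_le_prod (fun p hp => by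
        have := (hF p (hUF hp)).1
        rw [sub_nonneg, div_le_one (by positivity)]
        norm_cast; omega) fun p hp => by
      have h6 := (hF p (hUF hp)).1
      have h7 : (sg p (e p) : ℝ) * (p - 1) + 1 = (p : ℝ) ^ e p * p := by
        have := sg_mul (p := p) (by omega) (e p)
        rw [← pow_succ]
        have h8 : ((p - 1 : ℕ) : ℝ) = p - 1 := by rw [Nat.cast_pred (by omega)]
        rw [← h8]
        exact_mod_cast this
      have h9 : (0 : ℝ) < p := by positivity
      rw [le_div_iff₀ (by exact_mod_cast sp p), one_sub_div h9.ne', div_mul_eq_mul_div,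
        div_le_iff₀ h9]
      linarith
    rw [nsmul_eq_mul] at h3
    have h6 : 0 ≤ Y := prod_nonneg fun p _ => by positivity
    have h7 := mul_le_mul_of_nonneg_left X1 (Nat.cast_nonneg (α := ℝ) w)
    have h8 := mul_le_mul_of_nonneg_right h1 h6
    nlinarith

theorem gap (hF : ∀ p ∈ F, 3 ≤ p ∧ Odd p ∧ 1 ≤ e p) (hk : F.card ≤ k) (hk0 : 0 < k) (hv : 0 < v)
    (h : v * ∏ p ∈ F, sg p (e p) = u * ∏ p ∈ F, p ^ e p) :
    ∏ p ∈ F, p ^ e p ≤ (2 * k * v) ^ 4 ^ F.card := by
  classical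
  have ind : ∀ j ≤ 2 * F.card, ∃ S T : Finset ℕ, S ⊆ F ∧ T ⊆ F ∧ Disjoint S T ∧
      2 * S.card + T.card = j ∧
      2 * k * (v * (∏ p ∈ S, sg p (e p)) * ∏ p ∈ T, p) ≤ (2 * k * v) ^ 2 ^ j := by
    intro j
    induction j with
    | zero => exact fun _ => ⟨∅, ∅, by simp, by simp, by simp, by simp, by simp⟩
    | succ j ih =>
      intro hj
      obtain ⟨S, T, hS, hT, hST, hc, hw⟩ := ih (by omega)
      have hne : S ≠ F := by
        rintro rfl
        omega
      have sq : ∀ w' : ℕ, w' ≤ (v * (∏ p ∈ S, sg p (e p)) * ∏ p ∈ T, p) *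
          (2 * k * (v * (∏ p ∈ S, sg p (e p)) * ∏ p ∈ T, p)) →
          2 * k * w' ≤ (2 * k * v) ^ 2 ^ (j + 1) := fun w' h' => by
        rw [pow_succ, pow_mul, sq]
        exact le_trans ((Nat.mul_le_mul_left _ h').trans_eq (by ring)) (Nat.mul_le_mul hw hw)
      rcases step hF hk hv h hS hT hST hne with ⟨p, h1, h2, h3, h4⟩ | ⟨p, h1, h2⟩
      · refine ⟨S, insert p T, hS, insert_subset h1 hT, disjoint_insert_right.2 ⟨h2, hST⟩, ?_,
          sq _ ?_⟩
        · rw [card_insert_of_notMem h3]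
          omega
        · rw [prod_insert h3]
          exact le_trans (le_of_eq (by ring)) (Nat.mul_le_mul_left _ h4)
      · have h3 : p ∉ S := disjoint_right.1 hST h1
        refine ⟨insert p S, T.erase p, insert_subset (hT h1) hS, (erase_subset _ _).trans hT,
          disjoint_insert_left.2 ⟨notMem_erase _ _, hST.mono_right (erase_subset _ _)⟩, ?_,
          sq _ ?_⟩
        · have := card_pos.2 ⟨p, h1⟩
          rw [card_insert_of_notMem h3, card_erase_of_mem h1]
          omega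
        · have h4 := (hF p (hT h1)).1
          have h5 : sg p (e p) ≤ p ^ (e p + 1) := by
            have := sg_mul (p := p) (by omega) (e p)
            have := Nat.le_mul_of_pos_right (sg p (e p)) (show 0 < p - 1 by omega)
            omega
          have h6 : ∏ p ∈ T.erase p, p ≤ ∏ p ∈ T, p := by
            rw [← mul_prod_erase T (fun p => p) h1]
            exact Nat.le_mul_of_pos_left _ (by omega)
          rw [prod_insert h3]
          calc _ = v * (∏ p ∈ S, sg p (e p)) * (∏ p ∈ T.erase p, p) * sg p (e p) := by ring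
            _ ≤ _ := Nat.mul_le_mul (Nat.mul_le_mul_left _ h6) (h5.trans (h2.trans
              (Nat.mul_le_mul_right _ (by omega))))
  obtain ⟨S, T, hS, hT, hST, hc, hw⟩ := ind _ le_rfl
  have h1 := card_le_card (union_subset hS hT)
  rw [card_union_of_disjoint hST] at h1
  obtain rfl : S = F := eq_of_subset_of_card_le hS (by omega)
  obtain rfl : T = ∅ := card_eq_zero.1 (by omega)
  rw [pow_mul, prod_empty, mul_one, ← mul_assoc] at hw
  exact le_trans ((prod_le_prod' fun p _ => le_sg p (e p)).trans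
    (Nat.le_mul_of_pos_left _ (by positivity))) hw

end

end Pool.Agent.Lib.MP_6adcb2_nt
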