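import Pool.Agent.Lib.MP_6adcb2_nt.Gap

/-! Explicit bound for harmonic numbers which are deficient or odd. -/

namespace Pool.Agent.Lib.MP_6adcb2_nt

open Finset

theorem le_sum {m : ℕ} (hm : 0 < m) : m ≤ ∑ d ∈ m.divisors, d :=
  single_le_sum (f := fun d => d) (fun _ _ => Nat.zero_le _) (Nat.mem_divisors_self m hm.ne')

theorem odd_bound {m v k : ℕ} (hm : Odd m) (hk : m.primeFactors.card ≤ k) (hk0 : 0 < k) (hv : 0 < v)
    (h : m ∣ v * ∑ d ∈ m.divisors, d) : m ≤ (2 * k * v) ^ 4 ^ k := by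
  have m0 := hm.pos.ne'
  obtain ⟨u, hu⟩ := h
  have e1 : ∏ p ∈ m.primeFactors, p ^ m.factorization p = m := Nat.prod_factorization_pow_eq_self m0
  have := gap (F := m.primeFactors) (e := m.factorization) (u := u) (fun p hp => by
    have h1 := Nat.prime_of_mem_primeFactors hp
    have h2 := hm.of_dvd_nat (Nat.dvd_of_mem_primeFactors hp)
    refine ⟨?_, h2, h1.factorization_pos_of_dvd m0 (Nat.dvd_of_mem_primeFactors hp)⟩
    have := h1.two_le
    obtain ⟨c, hc⟩ := h2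
    omega) hk hk0 hv (by rw [e1, mul_comm u, ← hu, Nat.sum_divisors m0]; rfl)
  rw [e1] at this
  exact this.trans (Nat.pow_le_pow_right (by positivity) (Nat.pow_le_pow_right (by norm_num) hk))

theorem cop {m M : ℕ} (hm : 0 < m) (hM : 0 < M) (h : M * ∑ d ∈ m.divisors, d < (M + 1) * m) :
    M.Coprime m := by
  rw [Nat.coprime_iff_gcd_eq_one]
  by_contra hg
  obtain ⟨c, hc⟩ := Nat.gcd_dvd_right M m
  have g0 := Nat.gcd_pos_of_pos_left m hM
  have g1 := Nat.gcd_le_left m hM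
  generalize M.gcd m = g at *
  have c0 : 0 < c := Nat.pos_of_mul_pos_left (hc ▸ hm)
  have h1 : c ≠ m := by
    rintro rfl
    exact hg (Nat.eq_of_mul_eq_mul_right c0 (by omega))
  have h2 : ∑ d ∈ {c, m}, d ≤ ∑ d ∈ m.divisors, d := sum_le_sum_of_subset fun d hd => by
    rw [mem_insert, mem_singleton] at hd
    rcases hd with rfl | rfl
    exacts [Nat.mem_divisors.2 ⟨Dvd.intro_left _ hc.symm, hm.ne'⟩, Nat.mem_divisors_self _ hm.ne']
  rw [sum_pair h1] at h2
  have h3 := Nat.mul_le_mul_left M h2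
  have h4 := Nat.mul_le_mul_right c g1
  nlinarith

theorem tau_bound {n k : ℕ} (hn : 0 < n) (hH : (∑ d ∈ n.divisors, d) ∣ n * n.divisors.card)
    (hd : ∑ d ∈ n.divisors, d < 2 * n ∨ Odd n) (hk : n.primeFactors.card ≤ k) (hk0 : 0 < k) :
    n ≤ (2 * k * n.divisors.card) ^ (4 ^ k + 1) := by
  obtain ⟨a, m, hm, rfl⟩ := Nat.exists_eq_two_pow_mul_odd hn.ne'
  have m0 := hm.pos
  have hc : (2 ^ a).Coprime m := Nat.Coprime.pow_left _ (Nat.coprime_two_left.2 hm)
  obtain ⟨M, hM⟩ : ∃ M, M = sg 2 a := ⟨_, rfl⟩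
  have hM1 : M + 1 = 2 ^ (a + 1) := by simpa [hM] using sg_mul (p := 2) one_le_two a
  have hM2 : 2 ^ a ≤ M := hM ▸ le_sg 2 a
  have M0 : 0 < M := lt_of_lt_of_le (by positivity) hM2
  have hs : ∑ d ∈ (2 ^ a * m).divisors, d = M * ∑ d ∈ m.divisors, d := by
    rw [hc.sum_divisors_mul, Nat.sum_divisors_prime_pow Nat.prime_two, hM, sg]
  have hcm : M.Coprime m := by
    rcases hd with hd | hd
    · exact cop m0 M0 (by rwa [← hs, hM1, pow_succ', mul_assoc])
    · obtain rfl : a = 0 := by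
        by_contra h0
        exact (Nat.not_even_iff_odd.2 hd) ((Nat.even_pow.2 ⟨even_two, h0⟩).mul_right _)
      obtain rfl : M = 1 := by omega
      simp
  have hc2 : M.Coprime (2 ^ a) := Nat.Coprime.pow_right _ (Nat.coprime_two_right.2
    ⟨2 ^ a - 1, by have := Nat.one_le_two_pow (n := a); rw [pow_succ] at hM1; omega⟩)
  have t0 : 0 < (2 ^ a * m).divisors.card := card_pos.2 ⟨_, Nat.mem_divisors_self _ hn.ne'⟩
  have hle := le_sum hn
  have hkm : m.primeFactors.card ≤ k :=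
    (card_le_card (Nat.primeFactors_mono (Dvd.intro_left _ rfl) hn.ne')).trans hk
  generalize (2 ^ a * m).divisors.card = t at *
  obtain ⟨H, hH⟩ := hH
  have H0 : 0 < H := Nat.pos_of_mul_pos_left (hH ▸ Nat.mul_pos hn t0)
  have H1 : H ≤ t := Nat.le_of_mul_le_mul_left (hH ▸ Nat.mul_le_mul_right H hle) hn
  rw [hs] at hH
  obtain ⟨t', rfl⟩ : M ∣ t := (Nat.Coprime.mul_right hc2 hcm).dvd_of_dvd_mul_left
    ⟨_, hH.trans (mul_assoc _ _ _)⟩
  have h1 := odd_bound hm hkm hk0 H0 ⟨2 ^ a * t', Nat.eq_of_mul_eq_mul_left M0 (by linarith)⟩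
  have h2 : M ≤ M * t' := Nat.le_mul_of_pos_right _ (Nat.pos_of_mul_pos_left t0)
  rw [pow_succ']
  exact Nat.mul_le_mul ((hM2.trans h2).trans (Nat.le_mul_of_pos_left _ (by omega)))
    (h1.trans (Nat.pow_le_pow_left (Nat.mul_le_mul_left _ H1) _))

theorem two_mul_le (k : ℕ) : 2 * k ≤ 2 ^ k := by
  cases k with
  | zero => simp
  | succ k => rw [pow_succ']; exact Nat.mul_le_mul_left 2 Nat.lt_two_pow_self

theorem main {n k : ℕ} (hn : 0 < n) (hH : (∑ d ∈ n.divisors, d) ∣ n * n.divisors.card)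
    (hd : ∑ d ∈ n.divisors, d < 2 * n ∨ Odd n) (hk : n.primeFactors.card ≤ k) :
    n < 2 ^ (8 * (k + 1) ^ 2 * 4 ^ k) := by
  rcases k.eq_zero_or_pos with rfl | hk0
  · have := Nat.primeFactors_eq_empty.1 (card_eq_zero.1 (Nat.le_zero.1 hk))
    omega
  have h1 := tau_bound hn hH hd hk hk0
  set L := Nat.log 2 n with hL
  have h2 : n.divisors.card ≤ (L + 1) ^ k := by
    rw [Nat.card_divisors hn.ne']
    refine (prod_le_pow_card _ _ (L + 1) fun p hp => Nat.succ_le_succ ?_).trans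
      (Nat.pow_le_pow_right (by omega) hk)
    exact Nat.le_log_of_pow_le one_lt_two ((Nat.pow_le_pow_left
      (Nat.prime_of_mem_primeFactors hp).two_le _).trans (Nat.ordProj_le p hn.ne'))
  obtain ⟨j, hj⟩ : ∃ j, j = Nat.log 2 (L + 1) := ⟨_, rfl⟩
  have h3 : L + 1 < 2 ^ (j + 1) := hj ▸ Nat.lt_pow_succ_log_self one_lt_two _
  have h4 : 2 ^ j ≤ L + 1 := hj ▸ Nat.pow_log_le_self 2 (by omega)
  have h5 : 2 ^ L ≤ 2 ^ ((j + 2) * k * (4 ^ k + 1)) := by
    refine ((Nat.pow_log_le_self 2 hn.ne').trans h1).trans ?_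
    rw [pow_mul]
    refine Nat.pow_le_pow_left ((Nat.mul_le_mul (two_mul_le k)
      (h2.trans (Nat.pow_le_pow_left h3.le k))).trans_eq ?_) _
    rw [← pow_mul, ← pow_add]
    congr 1
    ring
  have h6 := (Nat.pow_le_pow_iff_right one_lt_two).1 h5
  have h7 : 1 ≤ 4 ^ k := Nat.one_le_pow _ _ (by norm_num)
  have h8 : j ≤ 4 * k + 2 := by
    by_contra hc
    obtain ⟨i, rfl⟩ : ∃ i, j = 3 * k + (k + 3 + i) := ⟨j - (4 * k + 3), by omega⟩
    have h9 : k * (4 ^ k + 1) ≤ 2 ^ (3 * k) := by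
      have := Nat.mul_le_mul_right (4 ^ k) (two_mul_le k)
      rw [← mul_pow, show 2 * 4 = 2 ^ 3 by norm_num, ← pow_mul] at this
      nlinarith
    have h10 : 8 * (k + i + 1) ≤ 2 ^ (k + 3 + i) := by
      have : k + i < 2 ^ (k + i) := Nat.lt_two_pow_self
      rw [show k + 3 + i = k + i + 3 by ring, pow_add]
      omega
    have h11 := Nat.mul_le_mul_left (2 ^ (3 * k)) h10
    have h12 := Nat.mul_le_mul_left (3 * k + (k + 3 + i) + 2) h9
    have h13 : 0 < 2 ^ (3 * k) := by positivity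
    rw [← pow_add] at h11
    rw [mul_assoc] at h6
    nlinarith
  refine (Nat.lt_pow_succ_log_self one_lt_two n).trans_le (Nat.pow_le_pow_right two_pos ?_)
  have h9 : (j + 2) * k * (4 ^ k + 1) ≤ (4 * k + 4) * k * (2 * 4 ^ k) :=
    Nat.mul_le_mul (Nat.mul_le_mul_right _ (by omega)) (by omega)
  nlinarith

end Pool.Agent.Lib.MP_6adcb2_nt
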