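import Mathlib

/-! The search for an odd harmonic number with at most three primes: the program.
`Bool.rec x y c` is `y` if `c` holds and `x` otherwise. -/

namespace Pool.Agent.Lib.MP_6adcb2_nt.O

noncomputable section

/-- `Q` on all points from `n` on while `P` holds -/
def lp (P Q : ℕ → Bool) (f : ℕ) : ℕ → Bool :=
  Nat.rec (fun n => Bool.rec true false (P n))
    (fun _ r n => Bool.rec true (Bool.rec false (r n.succ) (Q n)) (P n)) f

/-- `Q` on the points `n + 1, n + 3, …, n + 2 f - 1` -/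
def ln (Q : ℕ → Bool) (n f : ℕ) : Bool :=
  Nat.rec true (fun i r => Bool.rec false r (Q (n.add (Nat.mul 2 i)).succ)) f

/-- `Q` on the points `n + 1, n + 3, …` of `[n, n + 2 ^ d * (2 f))` that are at most `B` -/
def al (B : ℕ) (Q : ℕ → Bool) (f d : ℕ) : ℕ → Bool :=
  Nat.rec (fun n => Bool.rec (ln Q n f) true (B.ble n)) (fun d r n =>
    Bool.rec (Bool.rec false (r (n.add ((Nat.pow 2 d).mul (Nat.mul 2 f)))) (r n)) true (B.ble n)) d

/-- a lower bound for the first point from `n` on with `P` -/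
def fb (P : ℕ → Bool) (f : ℕ) : ℕ → ℕ :=
  Nat.rec (fun n => n) (fun _ r n => Bool.rec (r n.succ) n (P n)) f

/-- product of `[n, n + 2 ^ d)` -/
def pr (d : ℕ) : ℕ → ℕ :=
  Nat.rec (fun n => n) (fun d r n => (r n).mul (r (n.add (Nat.pow 2 d)))) d

/-- the least prime factor of `T`, if it lies in `[n, n + 2 ^ d)` -/
def mf (T d : ℕ) : ℕ → ℕ :=
  Nat.rec (fun n => n) (fun d r n =>
    Bool.rec (r n) (r (n.add (Nat.pow 2 d))) ((T.gcd (pr d n)).beq 1)) d

/-- least common multiple of `1, …, n` -/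
def lc (n : ℕ) : ℕ := Nat.rec 1 (fun n r => (r.mul n.succ).div (r.gcd n.succ)) n

def lh (N : ℕ) : ℕ :=
  Nat.rec (motive := fun _ => ℕ → ℕ) (fun x => x) (fun d r x =>
    Bool.rec (r x) (r (x.add (Nat.pow 2 d))) ((Nat.pow 2 (x.add (Nat.pow 2 d))).ble N)) 10 0

def lg' (N l : ℕ) : ℕ := Bool.rec l N ((Nat.pow 2 l.succ).ble N)

/-- an upper bound for the binary logarithm -/
def lg (N : ℕ) : ℕ := lg' N (lh N)

/-- Newton iteration for a root; its output is checked by the caller -/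
def nw (N t : ℕ) : ℕ :=
  Nat.rec (motive := fun _ => ℕ → ℕ → ℕ) (fun x _ => x) (fun _ r x y =>
    Bool.rec (r y (((t.mul y).add (N.div (y.pow t))).div t.succ)) x (x.ble y))
    400 N (Nat.pow 2 ((lg N).div t.succ).succ)

def rt (N : ℕ) (f : ℕ → Bool) (t s : ℕ) : Bool :=
  Bool.rec (Bool.rec false (Bool.rec true (f s) ((s.pow t).beq N)) ((s.pow t).ble N)) false
    ((s.succ.pow t).ble N)

def roots (N lo : ℕ) (f : ℕ → Bool) : Bool :=
  Bool.rec false (lp (fun t => (lo.pow t.succ).ble N) (fun t => rt N f t.succ (nw N t)) 400 1) (f N)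

def ok (x : ℕ) : Bool :=
  Bool.rec (Bool.rec false ((x.gcd 223092870).beq x) (x.ble 23)) true ((x.gcd 223092870).beq 1)

def par (x e : ℕ) : Bool := Bool.rec false ((x.mod 4).beq 3) ((e.mod 2).beq 1)

def sg' (p e : ℕ) : ℕ := ((p.pow e.succ).sub 1).div (p.sub 1)

def st (s M : ℕ) : ℕ := s.div (s.gcd M)

def sq (x : ℕ) : ℕ := Nat.mul 18 (x.pow 2)

def qup (p V : ℕ) : ℕ := Nat.add (((Nat.mul 2 p).mul V).div (p.sub 2)) 2

def lim (p a s V : ℕ) : ℕ :=
  sq (V.mul (Bool.rec p s ((p.pow a.succ).ble (sq ((V.mul p).mul (qup p V))))))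

def bet (p a s k V : ℕ) : ℕ := ((lg (lim p a s V)).div k).succ

def gam (s k V : ℕ) : ℕ := (lg (V.mul s)).div k

def dd (a b g : ℕ) : ℕ := (a.succ.mul b.succ).mul (b.add g).succ

def vf (p a s k V : ℕ) : ℕ := dd a (bet p a s k V) (gam s k V)

def ra (p V : ℕ) : ℕ := sq (V.mul ((Nat.mul 2 (sq (V.mul p))).mul (qup p V)))

def cl (q S m W r : ℕ) : Bool :=
  Bool.rec (lp (fun c => (r.pow c).ble (W.mul S)) (fun c =>
    Bool.rec true false ((((m.mul (r.pow c)).mul c.succ).mod (S.mul (sg' r c))).beq 0)) 400 1)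
    true (r.ble q)

def one (q S m W e h : ℕ) : Bool :=
  Bool.rec (lp (fun r => Bool.rec (r.ble e) true (r.ble (Nat.mul 2 h)))
    (fun r => Bool.rec true (cl q S m W r) (ok r)) 3000 q.succ) false ((m.mod S).beq 0)

def u3 (q S m W e h x y : ℕ) : Bool :=
  Bool.rec (roots x q.succ (cl q S m W))
    (Bool.rec (roots y q.succ (cl q S m W)) (one q S m W e h) (y.beq 1)) (x.beq 1)

def u2 (q S m W e h x y : ℕ) : Bool :=
  Bool.rec (Bool.rec true (u3 q S m W e h x y) ((y.mod x).beq 0)) (u3 q S m W e h x y)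
    ((x.mod y).beq 0)

def u1 (s q t m W e h : ℕ) : Bool :=
  u2 q (s.mul t) m W e h (st s (m.mul (lc e))) (st t (m.mul (lc e)))

def ut (p a s q W g b : ℕ) : Bool :=
  Bool.rec (Bool.rec true (u1 s q (sg' q b) (((p.pow a).mul (q.pow b)).mul (a.succ.mul b.succ)) W
    (b.add g).succ (a.succ.mul b.succ)) (q.ble (qup p (dd a b g)))) true (par q b)

def bl (p a s W g L b q : ℕ) : Bool := lp (fun b => (q.pow b.pred).ble L) (ut p a s q W g) 400 b

def q1 (p a s q k W : ℕ) : Bool :=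
  Bool.rec true (bl p a s W (gam s k W) (lim p a s W) 1 q) (q.ble (qup p W))

def qt (p a s V q : ℕ) : Bool :=
  Bool.rec (q1 p a s q q.log2 (vf p a s q.log2 V)) true (q.ble p)

def kk (p a s k W : ℕ) : ℕ :=
  (a.succ.mul (lc (bet p a s k W).succ)).mul (lc ((bet p a s k W).add (gam s k W)).succ)

def g2 (F e y : ℕ) : Bool := Bool.rec true false ((((y.gcd F).pow e).mod y).beq 0)

def g1 (p F e M Z r : ℕ) : Bool :=
  Bool.rec (lp (fun c => (r.pow c).ble Z) (fun c => g2 F e (st (sg' r c) M)) 400 1) true (r.ble p)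

def good (p a s k W F T : ℕ) : Bool :=
  Bool.rec (roots T p.succ (g1 p F (bet p a s k W) ((kk p a s k W).mul (p.pow a))
    (((W.mul s).mul (Nat.mul 2 (lim p a s W))).mul (qup p W)))) false (T.beq 1)

def b3 (p a s W g L b U q : ℕ) : Bool :=
  Bool.rec true (Bool.rec true (Bool.rec (bl p a s W g L b q) true (q.ble p)) (ok q))
    ((U.mod q).beq 0)

def b2 (p a s F k W T : ℕ) : Bool :=
  al (qup p W) (b3 p a s W (gam s k W) (lim p a s W)
    (fb (fun b => (Nat.pow 2 k).ble (qup p (dd a b (gam s k W)))) 400 1)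
    (Bool.rec 0 T (good p a s k W F T))) (Nat.pow 2 (k.pred.sub (k.sub 6))) (k.sub 6) (Nat.pow 2 k)

def b1 (p a s F k W : ℕ) : Bool :=
  Bool.rec true (b2 p a s F k W (st s (kk p a s k W))) ((Nat.pow 2 k).ble (qup p W))

def n3 (p a s k V F κ T : ℕ) : Bool :=
  Bool.rec (lp (fun k => k.succ.ble κ) (fun k => b1 p a s F k (vf p a s k V)) 30 k)
    (Bool.rec (qt p a s V (mf T κ 1)) true ((T.gcd F).beq 1)) (good p a s k V F T)

def n2 (p a s k V F κ : ℕ) : Bool :=
  Bool.rec true (Bool.rec (Bool.rec (n3 p a s k V F κ (st s (kk p a s k V))) false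
    (Bool.rec false ((Nat.pow 2 κ).ble (qup p (vf p a s κ (vf p a s κ V))))
      ((Nat.pow 2 κ).ble (qup p V)))) true ((qup p V).ble p)) ((p.pow a.pred).ble (ra p V))

def n1 (p a s k V F κ : ℕ) : Bool := n2 p a s k (vf p a s k (vf p a s k V)) F κ

def node (p V F κ a : ℕ) : Bool :=
  Bool.rec (n1 p a (sg' p a) (p.add 2).log2 V F κ) true (par p a)

def pp (V κ p : ℕ) : Bool :=
  Bool.rec true (lp (fun a => (p.pow a.pred).ble (ra p V)) (node p V (pr κ 1) κ) 400 1) (ok p)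

/-- all odd `p` in `[n, n + 2 f)`, `n` even -/
def chunk (V κ n f : ℕ) : Bool := ln (pp V κ) n f

end

end Pool.Agent.Lib.MP_6adcb2_nt.O
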