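import Pool.Agent.Lib.MP_6adcb2_nt.OSound

/-! The search for an odd harmonic number with at most three primes: the inequalities. -/

namespace Pool.Agent.Lib.MP_6adcb2_nt.O

open Finset

theorem pw {x k e m d : ℕ} (hx : 2 ^ k ≤ x) (h : x ^ e ≤ 2 ^ m * x ^ d) : k * (e - d) ≤ m := by
  rcases le_total e d with h1 | h1
  · simp [Nat.sub_eq_zero_of_le h1]
  · obtain ⟨e, rfl⟩ := Nat.exists_eq_add_of_le' h1
    rw [pow_add] at h
    have h2 := Nat.le_of_mul_le_mul_right h (pow_pos ((Nat.two_pow_pos k).trans_le hx) d)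
    rw [Nat.add_sub_cancel, ← Nat.pow_le_pow_iff_right one_lt_two, pow_mul]
    exact (Nat.pow_le_pow_left hx e).trans h2

def w3 (a b g : ℕ) : ℕ := (a + 1) * (b + 1) * (a + b + g + 1)

def wf (k l : ℕ) : ℕ :=
  max (w3 (1 + (4 * l + 11) / k) (1 + 2 * (1 + (4 * l + 11) / k) + (2 * l + 5) / k) (l / k))
    (w3 (5 + (8 * l + 21) / k) (3 + (2 * l + 5) / k) (l / k))

theorem cube (l : ℕ) : 600 * (l + 25 + 4) ^ 3 < 2 ^ (l + 24) := by
  induction l with
  | zero => norm_num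
  | succ l ih =>
    have h1 : 4 * (l + 1 + 25 + 4) ≤ 5 * (l + 25 + 4) := by omega
    have h2 := Nat.pow_le_pow_left h1 3
    rw [mul_pow, mul_pow] at h2
    rw [show l + 1 + 24 = l + 24 + 1 by omega, pow_succ 2]
    omega

namespace Cfg

variable {p a q b r c v k l : ℕ} (H : Cfg p a q b r c v)
include H

theorem q8 : q ≤ 8 * v := by
  have h1 := H.h1
  have h2 := H.p3
  have h3 := H.v0
  have h4 : (p - 2) * (q - 2) ≤ (p - 2) * (6 * v) := h1.trans (by
    have := Nat.mul_le_mul_right (2 * v) (show p ≤ 3 * (p - 2) by omega)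
    linarith)
  have := Nat.le_of_mul_le_mul_left h4 (by omega)
  omega

theorem v_wf (hk : 1 ≤ k) (hp : 2 ^ k ≤ p) (hl : v ≤ 2 ^ l) : v ≤ wf k l := by
  have hq := hp.trans H.l1.le
  have h8 : q ≤ 8 * 2 ^ l := H.q8.trans (Nat.mul_le_mul_left 8 hl)
  have s1 : sg p a ≤ q ^ a := (sg_le p a).trans (Nat.pow_le_pow_left H.l1 a)
  have dv : ∀ {x m : ℕ}, k * x ≤ m → x ≤ m / k := fun h =>
    (Nat.le_div_iff_mul_le hk).2 (mul_comm k _ ▸ h)
  have hc := dv (pw (hq.trans H.l2.le) ((H.c_sub hl).trans (Nat.mul_le_mul_left _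
    (s1.trans (Nat.pow_le_pow_left H.l2.le a)))))
  have fin : ∀ {a' b' : ℕ}, a ≤ a' → b ≤ b' → v ≤ w3 a' b' (l / k) := fun ha hb =>
    H.vD.trans (by rw [w3]; gcongr; omega)
  rcases H.h2 with h | h
  · have h1 := cancel H.pp.pos H.a1 (cancel2 H.pp.pos (mul_right_comm v p q ▸ h))
    have h2 := dv (pw (d := 0) (m := 4 * l + 11) hp (h1.trans ((show _ ≤
      18 * (2 ^ l * (8 * 2 ^ l)) ^ 2 by gcongr).trans (by ring_nf; omega))))
    have h3 := dv (pw (d := 2 * a) (m := 2 * l + 5) hq ((cancel H.pq.pos H.b1 H.h3).trans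
      ((show _ ≤ 32 * (2 ^ l * q ^ a) ^ 2 by gcongr; norm_num).trans_eq (by ring))))
    exact (fin (by omega) (by omega)).trans (le_max_left _ _)
  · have h0 := H.l1.le
    have h1 := dv (pw (d := 4) (m := 2 * l + 5) hq (h.trans
      ((show _ ≤ 32 * (2 ^ l * q * q) ^ 2 by gcongr; norm_num).trans_eq (by ring))))
    have h2 : sg q b ≤ 2 * (18 * (2 ^ l * p) ^ 2 * (8 * 2 ^ l)) := (sg_two H.pq.two_le b).trans
      (Nat.mul_le_mul_left 2 ((cancel2 H.pq.pos h).trans (by gcongr)))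
    have h3 := dv (pw (d := 4) (m := 8 * l + 21) hp ((cancel H.pp.pos H.a1 H.h4).trans ((show _ ≤
      18 * (2 ^ l * (2 * (18 * (2 ^ l * p) ^ 2 * (8 * 2 ^ l)))) ^ 2 by gcongr).trans
        (by ring_nf; omega))))
    exact (fin (by omega) (by omega)).trans (le_max_right _ _)

theorem v24 : v ≤ 2 ^ 24 := by
  by_contra h
  obtain ⟨l, hl⟩ := Nat.exists_eq_add_of_le' ((Nat.le_log2 H.v0.ne').2 (not_le.1 h).le)
  have h1 := Nat.log2_self_le H.v0.ne'
  have h2 := H.v_wf (k := 1) le_rfl (by have := H.p3; omega) (@Nat.lt_log2_self v).le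
  rw [hl, show l + 24 + 1 = l + 25 by omega] at h2
  rw [hl] at h1
  have h3 := cube l
  generalize l + 25 = m at *
  have h4 : wf 1 m ≤ 4 * (m + 4) * (10 * (m + 4)) * (15 * (m + 4)) := by
    simp only [wf, w3, Nat.div_one]
    exact max_le (by gcongr <;> omega)
      ((show _ ≤ 8 * (m + 4) * (3 * (m + 4)) * (11 * (m + 4)) by gcongr <;> omega).trans
        (by ring_nf; omega))
  have h5 : 4 * (m + 4) * (10 * (m + 4)) * (15 * (m + 4)) = 600 * (m + 4) ^ 3 := by ring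
  omega

theorem v_it (k l1 l2 : ℕ) {V : ℕ} (hp : 2 ^ k ≤ p)
    (h : 1 ≤ k ∧ wf k 24 ≤ 2 ^ l1 ∧ wf k l1 ≤ 2 ^ l2 ∧ wf k l2 ≤ V) : v ≤ V :=
  (H.v_wf h.1 hp ((H.v_wf h.1 hp ((H.v_wf h.1 hp H.v24).trans h.2.1)).trans h.2.2.1)).trans h.2.2.2

theorem p_lt : p < 4096 := by
  by_contra h
  have h1 := H.v_it 12 14 12 (V := 1890) (not_lt.1 h) (by decide)
  have h2 := H.h1
  have h3 := H.l1
  obtain ⟨x, rfl⟩ : ∃ x, p = x + 2 := ⟨p - 2, by omega⟩
  have h4 := Nat.mul_le_mul_left x (show x ≤ q - 2 by omega)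
  have h5 := Nat.mul_le_mul_left (2 * (x + 2)) h1
  have h6 := Nat.mul_le_mul_left x (show 4094 ≤ x by omega)
  rw [Nat.add_sub_cancel] at h2
  omega

end Cfg

theorem sg_add (p i j : ℕ) : p ^ j * sg p i ≤ sg p (i + j) := by
  induction j with
  | zero => simp
  | succ j ih =>
    have e : sg p (i + (j + 1)) = sg p (i + j) * p + 1 := by
      rw [sg, ← add_assoc, sum_range_succ', sg, sum_mul]; simp [pow_succ]
    have := Nat.mul_le_mul_right p ih
    rw [e, pow_succ, mul_right_comm]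
    omega

theorem sg_ratio {q r : ℕ} (h : q + 1 ≤ r) (c : ℕ) : sg r c * q ≤ r ^ c * (q + 1) := by
  induction c with
  | zero => simp [sg]
  | succ c ih =>
    have := Nat.mul_le_mul_left (r ^ c) h
    rw [sg_succ, add_mul, mul_add_one (r ^ (c + 1)), pow_succ]
    omega

theorem second {p a q b r c u v : ℕ} (pp : p.Prime) (pq : q.Prime) (pr : r.Prime) (l2 : q < r)
    (b1 : 1 ≤ b) (v0 : 0 < v) (huv : v.Coprime u)
    (h : v * (sg p a * sg q b * sg r c) = u * (p ^ a * q ^ b * r ^ c)) :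
    (p - 2) * (q - 2) ≤ 2 * p * v := by
  by_cases h0 : q ≤ v
  · exact Nat.mul_le_mul (by omega) (by omega)
  have h1 : v ∣ p ^ a := by
    have h2 : ∀ {x}, x.Prime → q ≤ x → v.Coprime x := fun hx h3 => (hx.coprime_iff_not_dvd.2
      fun h4 => h0 (h3.trans (Nat.le_of_dvd v0 h4))).symm
    exact ((h2 pq le_rfl).pow_right b).dvd_of_dvd_mul_right (((h2 pr l2.le).pow_right c
      ).dvd_of_dvd_mul_right (huv.dvd_of_dvd_mul_left ⟨_, h.symm⟩))
  obtain ⟨i, hi, rfl⟩ := (Nat.dvd_prime_pow pp).1 h1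
  obtain ⟨j, rfl⟩ := Nat.exists_eq_add_of_le hi
  have n0 : 0 < p ^ (i + j) * q ^ b * r ^ c := by
    have := pp.pos; have := pq.pos; have := pr.pos; positivity
  have h2 : sg p i < u := by
    refine Nat.lt_of_mul_lt_mul_right (a := p ^ (i + j) * q ^ b * r ^ c) ?_
    have h3 := Nat.mul_lt_mul_of_lt_of_le (lt_sg (p := q) b1) (le_sg r c) (sg_pos r c)
    have h4 := Nat.mul_lt_mul_of_le_of_lt (sg_add p i j) h3 (sg_pos p _)
    rw [← h]
    exact (le_of_eq (by ring)).trans_lt ((Nat.mul_lt_mul_of_pos_left h4 v0).trans_eq (by ring))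
  obtain ⟨x, rfl⟩ := Nat.exists_eq_add_of_le' pp.two_le
  obtain ⟨y, rfl⟩ := Nat.exists_eq_add_of_le' pq.two_le
  have h3 : u * (x + 1) * (y + 1) ^ 2 ≤ (x + 2) ^ i * (x + 2) * (y + 2) ^ 2 := by
    refine Nat.le_of_mul_le_mul_right ?_ n0
    have h4 := Nat.mul_le_mul_left ((x + 2) ^ i) (Nat.mul_le_mul (Nat.mul_le_mul
      (sg_ratio (q := x + 1) le_rfl (i + j)) (sg_ratio (q := y + 1) le_rfl b))
      (sg_ratio (q := y + 1) l2.le c))
    calc _ = u * ((x + 2) ^ (i + j) * (y + 2) ^ b * r ^ c) * ((x + 1) * (y + 1) ^ 2) := by ring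
      _ = _ := by rw [← h]; ring
      _ ≤ _ := h4
      _ = _ := by ring
  have h4 := sg_mul (p := x + 2) (by omega) i
  have h5 := Nat.mul_le_mul_right (x + 1) (Nat.succ_le_of_lt h2)
  simp only [Nat.add_sub_cancel]
  rw [pow_succ, show x + 2 - 1 = x + 1 from rfl] at h4
  have h6 := (Nat.mul_le_mul_right ((y + 1) ^ 2)
    (show (x + 2) ^ i * (x + 2) + x ≤ u * (x + 1) by rw [Nat.succ_mul] at h5; omega)).trans h3
  rw [mul_assoc, mul_comm (x + 2)]
  generalize (x + 2) ^ i * (x + 2) = z at *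
  by_contra h7
  have h8 := Nat.mul_le_mul_right (y + 2) (Nat.succ_le_of_lt (not_le.1 h7))
  nlinarith

section
variable {F : Finset ℕ} {e : ℕ → ℕ} {u v x y : ℕ}

theorem three (hk : F.card ≤ 3) {z w : ℕ} (hx : x ∈ F) (hy : y ∈ F) (hz : z ∈ F) (h1 : x ≠ y)
    (h2 : z ≠ x) (h3 : z ≠ y) (hw : w ∈ F) : w = x ∨ w = y ∨ w = z := by
  have h4 : ({x, y, z} : Finset ℕ) = F := eq_of_subset_of_card_le (by simp [insert_subset_iff, *])
    (hk.trans (card_eq_three.2 ⟨x, y, z, h1, h2.symm, h3.symm, rfl⟩).ge)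
  simpa [← h4] using hw

variable (hF : ∀ p ∈ F, 3 ≤ p ∧ Odd p ∧ 1 ≤ e p) (hk : F.card ≤ 3) (hv : 0 < v)
  (h : v * ∏ p ∈ F, sg p (e p) = u * ∏ p ∈ F, p ^ e p) (hx : x ∈ F) (hy : y ∈ F) (hxy : x ≠ y)
include hF hk hv h hx hy hxy

theorem gapA : x ^ (e x + 1) ≤ 18 * (v * x * y) ^ 2 ∨ y ^ (e y + 1) ≤ 18 * (v * x * y) ^ 2 := by
  have x3 := (hF x hx).1
  have y3 := (hF y hy).1
  have fin : ∀ {w N : ℕ}, w ∈ ({x, y} : Finset ℕ) → w ^ (e w + 1) ≤ 3 * (v * N * (x * y)) →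
      N ≤ 6 * (v * x * y) →
      x ^ (e x + 1) ≤ 18 * (v * x * y) ^ 2 ∨ y ^ (e y + 1) ≤ 18 * (v * x * y) ^ 2 := by
    intro w N h1 h2 h3
    have h4 := (h2.trans (show _ ≤ 3 * (v * (6 * (v * x * y)) * (x * y)) by gcongr)).trans_eq
      (show _ = 18 * (v * x * y) ^ 2 by ring)
    rcases mem_insert.1 h1 with rfl | h1
    exacts [.inl h4, .inr (mem_singleton.1 h1 ▸ h4)]
  have hT : {x, y} ⊆ F := by simp [insert_subset_iff, *]
  rcases step hF hk hv h (empty_subset F) hT (disjoint_empty_left _) (ne_empty_of_mem hx).symm with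
    ⟨z, hz, -, h1, h2⟩ | ⟨w, h1, h2⟩
  swap
  · rw [prod_empty, prod_pair hxy] at h2
    exact fin h1 h2 (by have : 0 < v * x * y := by positivity
                        omega)
  rw [prod_empty, prod_pair hxy] at h2
  have z3 := hF z hz
  have h3 : z ≠ x ∧ z ≠ y := by simpa using h1
  rcases step hF hk hv h (empty_subset F) (insert_subset hz hT) (disjoint_empty_left _)
    (ne_empty_of_mem hx).symm with ⟨w, hw, -, h4, -⟩ | ⟨w, h4, h5⟩
  · exact absurd (three hk hx hy hz hxy h3.1 h3.2 hw) (by simp at h4; omega)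
  rw [prod_empty, prod_insert h1, prod_pair hxy] at h5
  rcases mem_insert.1 h4 with rfl | h4
  swap
  · exact fin (N := z) h4 (h5.trans_eq (by ring)) (h2.trans_eq (by ring))
  have h6 : w ^ e w ≤ 3 * (v * x * y) := cancel (by omega) (Nat.le_add_left 1 _)
    (h5.trans_eq (by ring))
  rcases step hF hk hv h (singleton_subset_iff.2 hz) hT (disjoint_singleton_left.2 h1)
    (fun h => h3.1 (mem_singleton.1 (h ▸ hx)).symm) with ⟨t, ht, h7, h8, -⟩ | ⟨t, h7, h8⟩
  · exact absurd (three hk hx hy hz hxy h3.1 h3.2 ht) (by simp at h7 h8; omega)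
  · rw [prod_singleton, prod_pair hxy] at h8
    exact fin h7 h8 ((sg_two (by omega) _).trans (by omega))

theorem gapB : y ^ e y ≤ 18 * (v * sg x (e x)) ^ 2 * y := by
  have y3 := (hF y hy).1
  have s0 := sg_pos x (e x)
  have fin : ∀ {N : ℕ}, y ^ (e y + 1) ≤ 3 * (v * sg x (e x) * N) * y →
      N ≤ 6 * (v * sg x (e x) * y) → y ^ e y ≤ 18 * (v * sg x (e x)) ^ 2 * y := fun h2 h3 =>
    ((cancel (by omega) (Nat.le_add_left 1 _) h2).trans (show _ ≤
      3 * (v * sg x (e x) * (6 * (v * sg x (e x) * y))) by gcongr)).trans_eq (by ring)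
  have hS := singleton_subset_iff.2 hx
  have hT := singleton_subset_iff.2 hy
  have hne : {x} ≠ F := fun h => hxy (mem_singleton.1 (h ▸ hy)).symm
  rcases step hF hk hv h hS hT (disjoint_singleton.2 hxy) hne with
    ⟨z, hz, h0, h1, h2⟩ | ⟨w, h1, h2⟩
  swap
  · rw [prod_singleton, prod_singleton, mem_singleton.1 h1] at h2
    exact fin (N := 1) (h2.trans_eq (by ring)) (by have : 0 < v * sg x (e x) * y := by positivity
                                                   omega)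
  rw [prod_singleton, prod_singleton] at h2
  have z3 := hF z hz
  have h3 := notMem_singleton.1 h0
  have h3' := notMem_singleton.1 h1
  rcases step hF hk hv h hS (insert_subset hz hT) (by simp [hxy, h3.symm]) hne with
    ⟨w, hw, h4, h5, -⟩ | ⟨w, h4, h5⟩
  · exact absurd (three hk hx hy hz hxy h3 h3' hw) (by simp at h4 h5; omega)
  rw [prod_singleton, prod_pair h3'] at h5
  rcases mem_insert.1 h4 with rfl | h4
  swap
  · rw [mem_singleton.1 h4] at h5
    exact fin (N := z) (h5.trans_eq (by ring)) h2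
  have h6 : w ^ e w ≤ 3 * (v * sg x (e x) * y) := cancel (by omega) (Nat.le_add_left 1 _)
    (h5.trans_eq (by ring))
  rcases step hF hk hv h (insert_subset hz hS) hT (by simp [hxy.symm, h3'.symm])
    (fun h => by have := h ▸ hy; simp at this; omega) with ⟨t, ht, h7, h8, -⟩ | ⟨t, h7, h8⟩
  · exact absurd (three hk hx hy hz hxy h3 h3' ht) (by simp at h7 h8; omega)
  · rw [prod_pair h3, prod_singleton, mem_singleton.1 h7] at h8
    exact fin (N := sg w (e w)) (h8.trans_eq (by ring)) ((sg_two (by omega) _).trans (by omega))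

end

end Pool.Agent.Lib.MP_6adcb2_nt.O
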