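import Pool.Agent.Lib.MP_6adcb2_nt.OAlg

/-! The search for an odd harmonic number with at most three primes: a part of the run. -/

namespace Pool.Agent.Lib.MP_6adcb2_nt.O

theorem c1 : chunk 11904217 17 2 1 = true := by decide +kernel

theorem c2 : chunk 1061291 16 4 2 = true := by decide +kernel

theorem c3 : chunk 263872 15 8 4 = true := by decide +kernel

end Pool.Agent.Lib.MP_6adcb2_nt.O
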