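import Pool.Agent.Lib.MP_6adcb2_nt.OAlg

/-! The search for an odd harmonic number with at most three primes: a part of the run. -/

namespace Pool.Agent.Lib.MP_6adcb2_nt.O

theorem c4 : chunk 80325 15 16 8 = true := by decide +kernel

theorem c5 : chunk 41820 14 32 16 = true := by decide +kernel

theorem c6 : chunk 18135 14 64 32 = true := by decide +kernel

theorem c7 : chunk 10868 13 128 64 = true := by decide +kernel

end Pool.Agent.Lib.MP_6adcb2_nt.O
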