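import Pool.Agent.Lib.MP_6adcb2_nt.OAlg

/-! The search for an odd harmonic number with at most three primes: a part of the run. -/

namespace Pool.Agent.Lib.MP_6adcb2_nt.O

theorem c8 : chunk 5670 13 256 128 = true := by decide +kernel

theorem c9 : chunk 5670 13 512 256 = true := by decide +kernel

theorem c10 : chunk 4104 13 1024 512 = true := by decide +kernel

theorem c11 : chunk 2576 13 2048 1024 = true := by decide +kernel

end Pool.Agent.Lib.MP_6adcb2_nt.O
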