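import Pool.Agent.Lib.MP_6adcb2_nt.OIneq
import Pool.Agent.Lib.MP_6adcb2_nt.ORun1
import Pool.Agent.Lib.MP_6adcb2_nt.ORun2
import Pool.Agent.Lib.MP_6adcb2_nt.ORun3

/-! An odd harmonic number above one has at least four prime factors. -/

namespace Pool.Agent.Lib.MP_6adcb2_nt.O

open Finset

theorem Cfg.false {p a q b r c v : ℕ} (H : Cfg p a q b r c v) : False := by
  have h1 := H.p3
  have h2 := H.p_lt
  rcases lt_or_ge p 4 with h | h1
  · exact H.chunk_spec (f := 1) (H.v_it 1 24 24 (by omega) (by decide)) (by omega) (by omega) h c1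
  rcases lt_or_ge p 8 with h | h1
  · exact H.chunk_spec (f := 2) (H.v_it 2 21 21 h1 (by decide)) (by omega) h1 h c2
  rcases lt_or_ge p 16 with h | h1
  · exact H.chunk_spec (f := 4) (H.v_it 3 19 19 h1 (by decide)) (by omega) h1 h c3
  rcases lt_or_ge p 32 with h | h1
  · exact H.chunk_spec (f := 8) (H.v_it 4 18 17 h1 (by decide)) (by omega) h1 h c4
  rcases lt_or_ge p 64 with h | h1
  · exact H.chunk_spec (f := 16) (H.v_it 5 17 16 h1 (by decide)) (by omega) h1 h c5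
  rcases lt_or_ge p 128 with h | h1
  · exact H.chunk_spec (f := 32) (H.v_it 6 16 15 h1 (by decide)) (by omega) h1 h c6
  rcases lt_or_ge p 256 with h | h1
  · exact H.chunk_spec (f := 64) (H.v_it 7 16 14 h1 (by decide)) (by omega) h1 h c7
  rcases lt_or_ge p 512 with h | h1
  · exact H.chunk_spec (f := 128) (H.v_it 8 15 13 h1 (by decide)) (by omega) h1 h c8
  rcases lt_or_ge p 1024 with h | h1
  · exact H.chunk_spec (f := 256) (H.v_it 9 15 13 h1 (by decide)) (by omega) h1 h c9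
  rcases lt_or_ge p 2048 with h | h1
  · exact H.chunk_spec (f := 512) (H.v_it 10 14 13 h1 (by decide)) (by omega) h1 h c10
  · exact H.chunk_spec (f := 1024) (H.v_it 11 14 13 h1 (by decide)) (by omega) h1 h2 c11

theorem sort3 {x y z : ℕ} (h1 : x ≠ y) (h2 : x ≠ z) (h3 : y ≠ z) :
    ∃ p q r, p < q ∧ q < r ∧ ({x, y, z} : Finset ℕ) = {p, q, r} := by
  obtain h | h | h | h | h | h : (x < y ∧ y < z) ∨ (x < z ∧ z < y) ∨ (y < x ∧ x < z) ∨
    (y < z ∧ z < x) ∨ (z < x ∧ x < y) ∨ (z < y ∧ y < x) := by omega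
  all_goals exact ⟨_, _, _, h.1, h.2, by ext; simp only [mem_insert, mem_singleton] <;> omega⟩

theorem odd_four {n : ℕ} (hn : 1 < n) (ho : Odd n)
    (hH : (∑ d ∈ n.divisors, d) ∣ n * n.divisors.card) : 4 ≤ n.primeFactors.card := by
  have n0 : n ≠ 0 := by omega
  have e1 : ∏ p ∈ n.primeFactors, p ^ n.factorization p = n :=
    Nat.prod_factorization_pow_eq_self n0
  have e2 : ∑ d ∈ n.divisors, d = ∏ p ∈ n.primeFactors, sg p (n.factorization p) :=
    Nat.sum_divisors n0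
  have pr : ∀ p ∈ n.primeFactors, p.Prime := fun p => Nat.prime_of_mem_primeFactors
  have hF : ∀ p ∈ n.primeFactors, 3 ≤ p ∧ Odd p ∧ 1 ≤ n.factorization p := fun p hp => by
    have h2 := ho.of_dvd_nat (Nat.dvd_of_mem_primeFactors hp)
    refine ⟨?_, h2, (pr p hp).factorization_pos_of_dvd n0 (Nat.dvd_of_mem_primeFactors hp)⟩
    have := (pr p hp).two_le
    obtain ⟨c, hc⟩ := h2
    omega
  have t0 : 0 < n.divisors.card := card_pos.2 ⟨_, Nat.mem_divisors_self _ n0⟩
  obtain ⟨u, v, huv, v0, vD, h⟩ : ∃ u v : ℕ, v.Coprime u ∧ 0 < v ∧ v ≤ n.divisors.card ∧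
      v * ∑ d ∈ n.divisors, d = u * n := by
    obtain ⟨w, hw⟩ := hH
    have w0 : 0 < w := Nat.pos_of_mul_pos_left (hw ▸ Nat.mul_pos ho.pos t0)
    have w1 : w ≤ n.divisors.card :=
      Nat.le_of_mul_le_mul_left (hw ▸ Nat.mul_le_mul_right w (le_sum ho.pos)) ho.pos
    obtain ⟨v, u, h1, h2, h3⟩ := Nat.exists_coprime w n.divisors.card
    have g0 := Nat.gcd_pos_of_pos_left n.divisors.card w0
    generalize w.gcd n.divisors.card = g at *
    refine ⟨u, v, h1, Nat.pos_of_mul_pos_right (h2 ▸ w0), (Nat.le_of_dvd w0 ⟨_, h2⟩).trans w1,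
      Nat.eq_of_mul_eq_mul_right g0 ?_⟩
    rw [h3, h2] at hw
    linarith
  have c0 : n.primeFactors.card ≠ 0 := fun h => by
    have := Nat.primeFactors_eq_empty.1 (card_eq_zero.1 h)
    omega
  rw [Nat.card_divisors n0] at hH vD
  rw [e2] at hH h
  generalize n.factorization = e at *
  generalize n.primeFactors = F at *
  subst e1
  by_contra h4
  have hk : F.card ≤ 3 := by omega
  have key : ∀ {p q r c : ℕ}, p ∈ F → q ∈ F → r.Prime → p < q → q < r →
      ∏ x ∈ F, sg x (e x) = sg p (e p) * sg q (e q) * sg r c →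
      ∏ x ∈ F, x ^ e x = p ^ e p * q ^ e q * r ^ c →
      ∏ x ∈ F, (e x + 1) = (e p + 1) * (e q + 1) * (c + 1) → False := by
    intro p q r c hp hq hr l1 l2 s1 s2 s3
    have g1 := gapA hF hk v0 h hp hq l1.ne
    have g2 := gapB hF hk v0 h hp hq l1.ne
    have g3 := gapB hF hk v0 h hq hp l1.ne'
    rw [s1, s2] at h
    rw [s1, s2, s3] at hH
    exact Cfg.false ⟨pr p hp, pr q hq, hr, (hF p hp).1, l1, l2, (hF p hp).2.2, (hF q hq).2.2, hH,
      s3 ▸ vD, v0, second (pr p hp) (pr q hq) hr l2 (hF q hq).2.2 v0 huv h, g1, g2, g3,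
      ((sg_cop r c).pow_right c).symm.dvd_of_dvd_mul_right
        ⟨u * (p ^ e p * q ^ e q), by rw [mul_assoc, h]; ring⟩⟩
  obtain h5 | h5 | h5 : F.card = 1 ∨ F.card = 2 ∨ F.card = 3 := by omega
  · obtain ⟨p, rfl⟩ := card_eq_one.1 h5
    simp only [prod_singleton] at hH
    obtain ⟨h6, -, h7⟩ := hF p (mem_singleton_self p)
    have h8 := Nat.le_of_dvd (Nat.succ_pos _) (((sg_cop p _).pow_right _).dvd_of_dvd_mul_left hH)
    have h9 := (Nat.lt_pow_self (n := e p) (show 1 < p by omega)).trans_le' le_rfl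
    have := lt_sg (p := p) h7
    omega
  · obtain ⟨p, q, l, rfl⟩ : ∃ p q, p < q ∧ F = {p, q} := by
      obtain ⟨x, y, h6, rfl⟩ := card_eq_two.1 h5
      rcases h6.lt_or_gt with h7 | h7
      exacts [⟨x, y, h7, rfl⟩, ⟨y, x, h7, pair_comm x y⟩]
    obtain ⟨r, h6, hr⟩ := Nat.exists_infinite_primes (q + 1)
    exact key (c := 0) (by simp) (by simp) hr l h6 (by simp [prod_pair l.ne, sg])
      (by simp [prod_pair l.ne]) (by simp [prod_pair l.ne])
  · obtain ⟨x, y, z, h6, h7, h8, h9⟩ := card_eq_three.1 h5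
    obtain ⟨p, q, r, l1, l2, h10⟩ := sort3 h6 h7 h8
    obtain rfl := h9.trans h10
    have s : ∀ g : ℕ → ℕ, ∏ x ∈ {p, q, r}, g x = g p * g q * g r := fun g => by
      rw [prod_insert (by simp; omega), prod_pair l2.ne, mul_assoc]
    exact key (c := e r) (by simp) (by simp) (pr r (by simp)) l1 l2 (s _) (s _) (s _)

theorem four {n : ℕ} (hn : 1 < n) (hH : (∑ d ∈ n.divisors, d) ∣ n * n.divisors.card)
    (hd : ∑ d ∈ n.divisors, d < 2 * n ∨ Odd n) : 4 ≤ n.primeFactors.card := by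
  rcases Nat.even_or_odd n with h | h
  · exact even_four (by omega) h hH (hd.resolve_right (Nat.not_odd_iff_even.2 h))
  · exact odd_four hn h hH

end Pool.Agent.Lib.MP_6adcb2_nt.O
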