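import Pool.Agent.Lib.MP_6adcb2_nt.OSpec

/-! The search for an odd harmonic number with at most three primes: soundness. -/

namespace Pool.Agent.Lib.MP_6adcb2_nt.O

/-- `p ^ a * q ^ b * r ^ c` is harmonic, and `v` is the denominator of its abundancy index -/
structure Cfg (p a q b r c v : ℕ) : Prop where
  pp : p.Prime
  pq : q.Prime
  pr : r.Prime
  p3 : 3 ≤ p
  l1 : p < q
  l2 : q < r
  a1 : 1 ≤ a
  b1 : 1 ≤ b
  hd : sg p a * sg q b * sg r c ∣ p ^ a * q ^ b * r ^ c * ((a + 1) * (b + 1) * (c + 1))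
  vD : v ≤ (a + 1) * (b + 1) * (c + 1)
  v0 : 0 < v
  h1 : (p - 2) * (q - 2) ≤ 2 * p * v
  h2 : p ^ (a + 1) ≤ 18 * (v * p * q) ^ 2 ∨ q ^ (b + 1) ≤ 18 * (v * p * q) ^ 2
  h3 : q ^ b ≤ 18 * (v * sg p a) ^ 2 * q
  h4 : p ^ a ≤ 18 * (v * sg q b) ^ 2 * p
  h5 : r ^ c ∣ v * (sg p a * sg q b)

theorem cancel {x e N : ℕ} (hx : 0 < x) (he : 1 ≤ e) (h : x ^ e ≤ N * x) : x ^ (e - 1) ≤ N := by
  obtain ⟨e, rfl⟩ := Nat.exists_eq_add_of_le' he
  exact Nat.le_of_mul_le_mul_right (pow_succ x e ▸ h) hx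

theorem cancel2 {x y e : ℕ} (hx : 0 < x) (h : x ^ (e + 1) ≤ 18 * (y * x) ^ 2) :
    x ^ e ≤ 18 * y ^ 2 * x := cancel hx (Nat.le_add_left 1 e) (h.trans_eq (by ring))

namespace Cfg

variable {p a q b r c v V W k g : ℕ} (H : Cfg p a q b r c v)
include H

theorem q_le (hV : v ≤ V) : q ≤ qup p V := by
  have h1 := H.p3
  have h2 : q - 2 ≤ 2 * p * V / (p - 2) := (Nat.le_div_iff_mul_le (by omega)).2
    (by rw [mul_comm]; exact H.h1.trans (Nat.mul_le_mul_left _ hV))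
  show q ≤ 2 * p * V / (p - 2) + 2
  omega

theorem b_lim (hV : v ≤ V) : q ^ (b - 1) ≤ lim p a (sg p a) V := by
  have hq := H.q_le hV
  rw [lim]
  by_cases h : (p.pow a.succ).ble (sq ((V.mul p).mul (qup p V))) = true
  · rw [br_pos h]
    exact (cancel H.pq.pos H.b1 H.h3).trans (show _ ≤ 18 * (V * sg p a) ^ 2 by gcongr)
  · rw [br_neg h]
    rw [Nat.ble_eq] at h
    have h2 := H.h2.resolve_left fun h2 =>
      h (h2.trans (show _ ≤ 18 * (V * p * qup p V) ^ 2 by gcongr))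
    exact (cancel H.pq.pos H.b1 (cancel2 H.pq.pos h2)).trans
      (show _ ≤ 18 * (V * p) ^ 2 by gcongr)

theorem b_bet (hV : v ≤ V) (hk : 1 ≤ k) (hq : 2 ^ k ≤ q) : b ≤ bet p a (sg p a) k V := by
  have := le_log hk hq (H.b_lim hV)
  show b ≤ lg _ / k + 1
  omega

theorem r_le (hV : v ≤ V) : r ^ c ≤ V * (sg p a * sg q b) :=
  (Nat.le_of_dvd (Nat.mul_pos H.v0 (Nat.mul_pos (sg_pos _ _) (sg_pos _ _))) H.h5).trans
    (Nat.mul_le_mul_right _ hV)

theorem c_sub (hV : v ≤ V) : r ^ (c - b) ≤ V * sg p a := by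
  rcases le_total c b with h | h
  · rw [Nat.sub_eq_zero_of_le h]
    exact Nat.mul_pos (H.v0.trans_le hV) (sg_pos _ _)
  · obtain ⟨e, rfl⟩ := Nat.exists_eq_add_of_le' h
    have h1 := (H.r_le hV).trans (Nat.mul_le_mul_left V (Nat.mul_le_mul_left (sg p a)
      ((sg_le q b).trans (Nat.pow_le_pow_left H.l2 b))))
    rw [pow_add, ← mul_assoc] at h1
    rw [Nat.add_sub_cancel]
    exact Nat.le_of_mul_le_mul_right h1 (pow_pos H.pr.pos b)

theorem c_gam (hV : v ≤ V) (hk : 1 ≤ k) (hq : 2 ^ k ≤ q) : c ≤ b + gam (sg p a) k V := by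
  have := le_log hk (hq.trans H.l2.le) (H.c_sub hV)
  show c ≤ b + lg (V * sg p a) / k
  omega

theorem v_dd {b' : ℕ} (hb : b ≤ b') (hc : c ≤ b + g) : v ≤ dd a b' g :=
  H.vD.trans (show _ ≤ (a + 1) * (b' + 1) * (b' + g + 1) by gcongr; omega)

theorem v_vf (hV : v ≤ V) (hk : 1 ≤ k) (hq : 2 ^ k ≤ q) : v ≤ vf p a (sg p a) k V :=
  H.v_dd (H.b_bet hV hk hq) (H.c_gam hV hk hq)

theorem a_ra (hV : v ≤ V) : p ^ (a - 1) ≤ ra p V := by
  have hq := H.q_le hV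
  show _ ≤ 18 * (V * (2 * (18 * (V * p) ^ 2) * qup p V)) ^ 2
  rcases H.h2 with h | h
  · have h1 := cancel H.pp.pos H.a1 (cancel2 H.pp.pos (mul_right_comm v p q ▸ h))
    have h2 : 0 < V * p := Nat.mul_pos (H.v0.trans_le hV) H.pp.pos
    have h3 : q ≤ 2 * (18 * (V * p) ^ 2) * qup p V := hq.trans (Nat.le_mul_of_pos_left _ (by positivity))
    exact h1.trans (by gcongr)
  · have h1 : sg q b ≤ 2 * (18 * (V * p) ^ 2) * qup p V := (sg_two H.pq.two_le b).trans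
      ((Nat.mul_le_mul_left 2 (cancel2 H.pq.pos h)).trans (by rw [← mul_assoc]; gcongr))
    exact (cancel H.pp.pos H.a1 H.h4).trans (by gcongr)

theorem op : Odd p := H.pp.odd_of_ne_two (by have := H.p3; omega)

theorem oq : Odd q := H.pq.odd_of_ne_two (by have := H.p3; have := H.l1; omega)

theorem or : Odd r := H.pr.odd_of_ne_two (by have := H.p3; have := H.l1; have := H.l2; omega)

theorem par_p : ¬par p a = true := par_spec H.op H.oq H.or H.hd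

theorem par_q : ¬par q b = true := par_spec (b := a) (c := c) H.oq H.op H.or
  ((dvd_of_eq (by ring)).trans (H.hd.trans (dvd_of_eq (by ring))))

theorem cl_spec (hW : v ≤ W) (hc : 1 ≤ c) :
    ¬cl q (sg p a * sg q b) (p ^ a * q ^ b * ((a + 1) * (b + 1))) W r = true := by
  intro h
  have h1 := lp_spec (pow_mono H.pr.pos) (((br _ _ _).1 h).2 (by
    rw [Nat.ble_eq]; exact H.l2.not_ge)) c hc (by rw [Nat.ble_eq]; exact H.r_le hW)
  refine absurd (((br _ _ _).1 h1).1 ?_) (by decide)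
  rw [Nat.beq_eq, sg'_eq H.pr.two_le]
  exact Nat.mod_eq_zero_of_dvd (H.hd.trans (dvd_of_eq (by
    simp only [Nat.mul_eq, Nat.pow_eq, Nat.succ_eq_add_one]; ring)))

theorem root_spec {x : ℕ} (hW : v ≤ W) (hx : x ∣ r ^ c) (h1 : ¬x.beq 1 = true) : ¬roots x q.succ
    (cl q (sg p a * sg q b) (p ^ a * q ^ b * ((a + 1) * (b + 1))) W) = true := fun h => by
  rw [Nat.beq_eq] at h1
  obtain ⟨t, -, ht⟩ := (Nat.dvd_prime_pow H.pr).1 hx
  exact H.cl_spec hW (Nat.pos_of_ne_zero fun e => h1 (by simpa [e] using hx))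
    (roots_spec h q.succ_pos H.l2 h1 ht)

theorem one_spec {e : ℕ} (hW : v ≤ W)
    (h1 : sg p a ∣ p ^ a * q ^ b * ((a + 1) * (b + 1)) * lc e)
    (h2 : sg q b ∣ p ^ a * q ^ b * ((a + 1) * (b + 1)) * lc e) :
    ¬one q (sg p a * sg q b) (p ^ a * q ^ b * ((a + 1) * (b + 1))) W e ((a + 1) * (b + 1)) = true := by
  intro h
  rw [one, br] at h
  rcases c.eq_zero_or_pos with rfl | hc
  · refine absurd (h.1 ?_) (by decide)
    rw [Nat.beq_eq]
    exact Nat.mod_eq_zero_of_dvd (by simpa [sg] using H.hd)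
  have h3 := lp_spec (fun m hm => by
    simp only [br, Nat.ble_eq, Nat.mul_eq] at hm ⊢
    exact ⟨fun _ => trivial, fun h => by have := hm.2 (by omega); omega⟩)
    (h.2 fun h' => absurd (h.1 h') (by decide)) r H.l2 (by
      simp only [br, Nat.ble_eq, Nat.mul_eq]
      refine ⟨fun _ => trivial, fun h4 => ?_⟩
      by_cases h5 : r ∣ sg p a * sg q b
      · have h6 : r ∣ p ^ a * q ^ b * ((a + 1) * (b + 1)) * lc e :=
          (H.pr.dvd_mul.1 h5).elim (fun h => h.trans h1) fun h => h.trans h2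
        rcases H.pr.dvd_mul.1 h6 with h7 | h7
        · rcases H.pr.dvd_mul.1 h7 with h8 | h8
          · rcases H.pr.dvd_mul.1 h8 with h9 | h9
            · exact absurd (Nat.le_of_dvd H.pp.pos (H.pr.dvd_of_dvd_pow h9)) (H.l1.trans H.l2).not_ge
            · exact absurd (Nat.le_of_dvd H.pq.pos (H.pr.dvd_of_dvd_pow h9)) H.l2.not_ge
          · have := Nat.le_of_dvd (by positivity) h8
            omega
        · exact H.pr.dvd_factorial.1 (h7.trans (lc_fac e))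
      · have h6 := (Nat.le_of_dvd H.v0 ((((H.pr.coprime_iff_not_dvd).2 h5).pow_left c).dvd_of_dvd_mul_right
          H.h5)).trans H.vD
        obtain ⟨c, rfl⟩ := Nat.exists_eq_add_of_le' hc
        have h7 : c + 1 + 1 ≤ 2 * r ^ c := (Nat.succ_le_of_lt (Nat.lt_two_pow_self (n := c + 1))).trans
          (by rw [pow_succ']; exact Nat.mul_le_mul_left 2 (Nat.pow_le_pow_left H.pr.two_le c))
        have h8 := h6.trans (Nat.mul_le_mul_left _ h7)
        rw [pow_succ', ← mul_assoc, mul_comm _ 2] at h8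
        exact absurd (Nat.le_of_mul_le_mul_right h8 (pow_pos H.pr.pos c)) h4)
  exact H.cl_spec hW hc (((br _ _ _).1 h3).1 (ok_spec H.pr))

theorem ut_spec (hW : v ≤ W) (hc : c ≤ b + g) : ¬ut p a (sg p a) q W g b = true := by
  intro h
  have h1 := ((br _ _ _).1 (((br _ _ _).1 h).2 H.par_q)).1 (by
    rw [Nat.ble_eq]; exact H.q_le (H.v_dd le_rfl hc))
  rw [sg'_eq H.pq.two_le] at h1
  change u2 q (sg p a * sg q b) (p ^ a * q ^ b * ((a + 1) * (b + 1))) W (b + g + 1)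
    ((a + 1) * (b + 1)) (st _ (p ^ a * q ^ b * ((a + 1) * (b + 1)) * lc (b + g + 1)))
    (st _ (p ^ a * q ^ b * ((a + 1) * (b + 1)) * lc (b + g + 1))) = true at h1
  have h2 : sg p a * sg q b ∣ p ^ a * q ^ b * ((a + 1) * (b + 1)) * lc (b + g + 1) * r ^ c := by
    obtain ⟨w, hw⟩ := lc_dvd hc
    exact (Dvd.intro _ rfl).trans (H.hd.trans ⟨w, by rw [hw]; ring⟩)
  have h3 := strip (sg_pos p a) ((Dvd.intro _ rfl).trans h2)
  have h4 := strip (sg_pos q b) ((Dvd.intro_left _ rfl).trans h2)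
  have h5 := H.one_spec (e := b + g + 1) hW
  have h6 := @of_strip (sg p a) (p ^ a * q ^ b * ((a + 1) * (b + 1)) * lc (b + g + 1))
  have h7 := @of_strip (sg q b) (p ^ a * q ^ b * ((a + 1) * (b + 1)) * lc (b + g + 1))
  generalize st (sg p a) _ = x at h1 h3 h6
  generalize st (sg q b) _ = y at h1 h4 h7
  have h8 : u3 q (sg p a * sg q b) (p ^ a * q ^ b * ((a + 1) * (b + 1))) W (b + g + 1)
      ((a + 1) * (b + 1)) x y = true := by
    rw [u2, br, br, Nat.beq_eq, Nat.beq_eq] at h1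
    obtain ⟨i, -, rfl⟩ := (Nat.dvd_prime_pow H.pr).1 h3
    obtain ⟨j, -, rfl⟩ := (Nat.dvd_prime_pow H.pr).1 h4
    by_cases e : (r ^ i).mod (r ^ j) = 0
    · exact h1.1 e
    · exact (h1.2 e).1 (Nat.mod_eq_zero_of_dvd (pow_dvd_pow r
        (not_lt.1 fun h => e (Nat.mod_eq_zero_of_dvd (pow_dvd_pow r h.le)))))
  rw [u3, br, br] at h8
  by_cases e1 : x.beq 1 = true
  · by_cases e2 : y.beq 1 = true
    · exact h5 (h6 (Nat.eq_of_beq_eq_true e1)) (h7 (Nat.eq_of_beq_eq_true e2)) ((h8.1 e1).1 e2)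
    · exact H.root_spec hW h4 e2 ((h8.1 e1).2 e2)
  · exact H.root_spec hW h3 e1 (h8.2 e1)

theorem bl_spec {b0 : ℕ} (hW : v ≤ W) (hk : 1 ≤ k) (hq : 2 ^ k ≤ q) (hb : b0 ≤ b) :
    ¬bl p a (sg p a) W (gam (sg p a) k W) (lim p a (sg p a) W) b0 q = true := fun h =>
  H.ut_spec hW (H.c_gam hW hk hq)
    (lp_spec (pred_mono H.pq.pos) h b hb (by rw [Nat.ble_eq]; exact H.b_lim hW))

theorem k_le : 1 ≤ q.log2 := (Nat.le_log2 H.pq.ne_zero).2 H.pq.two_le

theorem qt_spec (hV : v ≤ V) : ¬qt p a (sg p a) V q = true := fun h => by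
  have h1 := Nat.log2_self_le H.pq.ne_zero
  have h2 := H.v_vf hV H.k_le h1
  exact H.bl_spec h2 H.k_le h1 H.b1 (((br _ _ _).1 (((br _ _ _).1 h).2 (by
    rw [Nat.ble_eq]; exact H.l1.not_ge))).1 (by rw [Nat.ble_eq]; exact H.q_le h2))

theorem kk_dvd (hW : v ≤ W) (hk : 1 ≤ k) (hq : 2 ^ k ≤ q) :
    (a + 1) * (b + 1) * (c + 1) ∣ kk p a (sg p a) k W :=
  Nat.mul_dvd_mul (Nat.mul_dvd_mul_left _ (lc_dvd (H.b_bet hW hk hq)))
    (lc_dvd ((H.c_gam hW hk hq).trans (Nat.add_le_add_right (H.b_bet hW hk hq) _)))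

theorem st_dvd (hW : v ≤ W) (hk : 1 ≤ k) (hq : 2 ^ k ≤ q) :
    st (sg p a) (kk p a (sg p a) k W) ∣ q ^ b * r ^ c := by
  obtain ⟨w, hw⟩ := H.kk_dvd hW hk hq
  refine strip (sg_pos p a) (((sg_cop p a).pow_right a).dvd_of_dvd_mul_left ?_)
  exact (Dvd.intro _ (mul_assoc _ _ _).symm).trans (H.hd.trans ⟨w, by rw [hw]; ring⟩)

theorem good_spec {F : ℕ} (hW : v ≤ W) (hk : 1 ≤ k) (hq : 2 ^ k ≤ q) (hF : q ∣ F)
    (h : good p a (sg p a) k W F (st (sg p a) (kk p a (sg p a) k W)) = true) :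
    q ∣ st (sg p a) (kk p a (sg p a) k W) := by
  have h1 := H.st_dvd hW hk hq
  obtain ⟨w, hw⟩ := H.kk_dvd hW hk hq
  rw [good, br] at h
  generalize st (sg p a) _ = T at h h1 ⊢
  have h2 : ¬T.beq 1 = true := fun e => absurd (h.1 e) (by decide)
  by_contra h3
  have h4 := (((H.pq.coprime_iff_not_dvd.2 h3).symm).pow_right b).dvd_of_dvd_mul_left h1
  obtain ⟨t, -, ht⟩ := (Nat.dvd_prime_pow H.pr).1 h4
  have h5 := h.2 h2
  rw [Nat.beq_eq] at h2
  have h6 := lp_spec (pow_mono H.pr.pos) (((br _ _ _).1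
    (roots_spec h5 p.succ_pos (H.l1.trans H.l2) h2 ht)).2 (by
      rw [Nat.ble_eq]; exact (H.l1.trans H.l2).not_ge)) c
    (Nat.pos_of_ne_zero fun e => h2 (by simpa [e] using h4)) (by
      rw [Nat.ble_eq]
      have h7 : q ^ b ≤ lim p a (sg p a) W * qup p W := by
        have := Nat.mul_le_mul (H.b_lim hW) (H.q_le hW)
        rwa [← pow_succ, Nat.sub_add_cancel H.b1] at this
      have h8 := (sg_two H.pq.two_le b).trans (Nat.mul_le_mul_left 2 h7)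
      exact (H.r_le hW).trans ((Nat.mul_le_mul_left W (Nat.mul_le_mul_left _ h8)).trans_eq
        (by simp only [Nat.mul_eq]; ring)))
  refine absurd (((br _ _ _).1 h6).1 ?_) (by decide)
  rw [Nat.beq_eq, sg'_eq H.pr.two_le]
  have h7 : st (sg r c) (kk p a (sg p a) k W * p ^ a) ∣ q ^ b :=
    strip (sg_pos r c) (((sg_cop r c).pow_right c).dvd_of_dvd_mul_left
      ((Dvd.intro_left _ rfl).trans (H.hd.trans ⟨w, by rw [hw]; ring⟩)))
  obtain ⟨i, hi, e⟩ := (Nat.dvd_prime_pow H.pq).1 h7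
  change (Nat.gcd (st (sg r c) (kk p a (sg p a) k W * p ^ a)) F) ^ _ %
    st (sg r c) (kk p a (sg p a) k W * p ^ a) = 0
  rw [e]
  rcases i with _ | i
  · exact Nat.mod_one _
  · exact Nat.mod_eq_zero_of_dvd ((pow_dvd_pow q (hi.trans (H.b_bet hW hk hq))).trans
      (pow_dvd_pow_of_dvd (Nat.dvd_gcd (dvd_pow_self q i.succ_ne_zero) hF) _))

theorem b1_spec {F : ℕ} (hW : v ≤ W) (hF : q ∣ F) : ¬O.b1 p a (sg p a) F q.log2 W = true := by
  intro h
  have hk := H.k_le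
  have h1 := Nat.log2_self_le H.pq.ne_zero
  have h2 := @Nat.lt_log2_self q
  generalize q.log2 = k at *
  have h3 := ((br _ _ _).1 h).1 (by rw [Nat.ble_eq]; exact h1.trans (H.q_le hW))
  obtain ⟨j, hj⟩ := H.oq
  obtain ⟨m, rfl⟩ := Nat.exists_eq_add_of_le' hk
  have e1 : q = Nat.pow 2 (m + 1) + 2 * (j - 2 ^ m) + 1 := by
    rw [Nat.pow_eq, pow_succ] at *; omega
  have e2 : 2 ^ (m + 1 - 6) * 2 ^ (m - (m + 1 - 6)) = 2 ^ m := by
    rw [← pow_add]; congr 1; omega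
  have h4 := al_spec (i := j - 2 ^ m) h3 (lt_of_lt_of_eq (by
    rw [pow_succ, pow_succ] at h2; omega) e2.symm) (e1 ▸ H.q_le hW)
  rw [← e1, b3, br, br, br] at h4
  refine H.bl_spec hW hk h1 (fb_spec H.b1 ?_) (((h4.1 ?_).1 (ok_spec H.pq)).2 (by
    rw [Nat.ble_eq]; exact H.l1.not_ge))
  · rw [Nat.ble_eq]
    exact h1.trans (H.q_le (H.v_dd le_rfl (H.c_gam hW hk h1)))
  · rw [Nat.beq_eq]
    by_cases e : good p a (sg p a) (m + 1) W F (st (sg p a) (kk p a (sg p a) (m + 1) W)) = true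
    · rw [br_pos e]
      exact Nat.mod_eq_zero_of_dvd (H.good_spec hW hk h1 hF e)
    · rw [br_neg e]
      exact Nat.zero_mod q

theorem node_spec {κ : ℕ} (hV : v ≤ V) (hκ : 1 ≤ κ) : ¬node p V (O.pr κ 1) κ a = true := by
  intro h
  have h1 := ((br _ _ _).1 h).2 H.par_p
  have l : p + 2 ≤ q := by
    obtain ⟨i, hi⟩ := H.op
    obtain ⟨j, hj⟩ := H.oq
    have := H.l1
    omega
  have hk : 1 ≤ (p + 2).log2 := (Nat.le_log2 (by omega)).2 (by omega)
  have hq : 2 ^ (p + 2).log2 ≤ q := (Nat.log2_self_le (by omega)).trans l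
  rw [sg'_eq H.pp.two_le, Nat.add_eq, n1] at h1
  have hW := H.v_vf (H.v_vf hV hk hq) hk hq
  generalize (p + 2).log2 = k at *
  generalize vf p a (sg p a) k (vf p a (sg p a) k V) = W at *
  have h2 := (br _ _ _).1 (((br _ _ _).1 (((br _ _ _).1 h1).1 (by
    rw [Nat.ble_eq]; exact H.a_ra hW))).2 (by
      rw [Nat.ble_eq]; exact (H.l1.trans_le (H.q_le hW)).not_ge))
  have h3 : q < 2 ^ κ := not_le.1 fun h3 => absurd (h2.1 ((br _ _ _).2 ⟨fun _ => by
    rw [Nat.ble_eq]; exact h3.trans (H.q_le (H.v_vf (H.v_vf hW hκ h3) hκ h3)), fun h4 =>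
      absurd (by rw [Nat.ble_eq]; exact h3.trans (H.q_le hW)) h4⟩)) (by decide)
  have hF : q ∣ O.pr κ 1 := pr_spec H.pq.pos (by omega)
  have h4 := (br _ _ _).1 (h2.2 fun h4 => absurd (h2.1 h4) (by decide))
  by_cases e : good p a (sg p a) k W (O.pr κ 1) (st (sg p a) (kk p a (sg p a) k W)) = true
  · have h5 := H.good_spec hW hk hq hF e
    have h6 := ((br _ _ _).1 (h4.1 e)).2 (by
      rw [Nat.beq_eq]
      exact fun h6 => H.pq.one_lt.not_ge (Nat.le_of_dvd one_pos (h6 ▸ Nat.dvd_gcd h5 hF)))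
    rw [mf_spec H.pq.one_lt h5 (fun l hl h7 => ?_) le_rfl H.pq.pos (by omega)] at h6
    · exact H.qt_spec hW h6
    · rcases hl.dvd_mul.1 (h7.trans (H.st_dvd hW hk hq)) with h8 | h8
      · exact ((Nat.prime_dvd_prime_iff_eq hl H.pq).1 (hl.dvd_of_dvd_pow h8)).ge
      · exact H.l2.le.trans ((Nat.prime_dvd_prime_iff_eq hl H.pr).1 (hl.dvd_of_dvd_pow h8)).ge
  · exact H.b1_spec (H.v_vf hW H.k_le (Nat.log2_self_le H.pq.ne_zero)) hF
      (lp_spec (fun m hm => by simp only [Nat.ble_eq, Nat.succ_eq_add_one] at hm ⊢; omega)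
        (h4.2 e) q.log2 ((Nat.le_log2 H.pq.ne_zero).2 hq)
        (by rw [Nat.ble_eq]; exact (Nat.log2_lt H.pq.ne_zero).2 h3))

theorem chunk_spec {κ f : ℕ} (hV : v ≤ V) (hκ : 1 ≤ κ) (h1 : 2 * f ≤ p) (h2 : p < 4 * f) :
    ¬chunk V κ (2 * f) f = true := fun h => by
  obtain ⟨j, hj⟩ := H.op
  have h3 := ln_spec (i := j - f) h (by omega)
  rw [show 2 * f + 2 * (j - f) + 1 = p by omega] at h3
  exact H.node_spec hV hκ (lp_spec (pred_mono H.pp.pos) (((br _ _ _).1 h3).1 (ok_spec H.pp)) a H.a1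
    (by rw [Nat.ble_eq]; exact H.a_ra hV))

end Cfg

end Pool.Agent.Lib.MP_6adcb2_nt.O
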