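import Pool.Agent.Lib.MP_6adcb2_nt.OAlg
import Pool.Agent.Lib.MP_6adcb2_nt.Even

/-! The search for an odd harmonic number with at most three primes: general lemmas. -/

namespace Pool.Agent.Lib.MP_6adcb2_nt.O

open Finset

theorem div_eq (a b : ℕ) : Nat.div a b = a / b := rfl

theorem mod_eq (a b : ℕ) : Nat.mod a b = a % b := rfl

theorem br (x y c : Bool) : (@Bool.rec (fun _ => Bool) x y c = true) ↔
    ((c = true → y = true) ∧ (¬c = true → x = true)) := by cases c <;> simp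

theorem br_pos {α : Type} {x y : α} {c : Bool} (h : c = true) :
    @Bool.rec (fun _ => α) x y c = y := by subst h; rfl

theorem br_neg {α : Type} {x y : α} {c : Bool} (h : ¬c = true) :
    @Bool.rec (fun _ => α) x y c = x := by rw [Bool.not_eq_true] at h; subst h; rfl

theorem lp_spec {P Q : ℕ → Bool} (hP : ∀ m, P (m + 1) = true → P m = true) {f n : ℕ}
    (h : lp P Q f n = true) : ∀ m, n ≤ m → P m = true → Q m = true := by
  have down : ∀ n m, n ≤ m → P m = true → P n = true := fun n m h => by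
    induction h with
    | refl => exact id
    | step _ ih => exact fun h => ih (hP _ h)
  induction f generalizing n with
  | zero => exact fun m h1 h2 => by simp [lp, down n m h1 h2] at h
  | succ f ih =>
    intro m h1 h2
    have h3 := (br _ _ _).1 (((br _ _ _).1 h).1 (down n m h1 h2))
    have h4 : Q n = true := by_contra fun h => absurd (h3.2 h) (by decide)
    rcases h1.eq_or_lt with rfl | h1
    exacts [h4, ih (h3.1 h4) m h1 h2]

theorem ln_spec {Q : ℕ → Bool} {n f i : ℕ} (h : ln Q n f = true) (hi : i < f) :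
    Q (n + 2 * i + 1) = true := by
  induction f with
  | zero => omega
  | succ f ih =>
    have h3 := (br _ _ _).1 h
    have h4 : Q (n + 2 * f + 1) = true := by_contra fun h => absurd (h3.2 h) (by decide)
    rcases (Nat.le_of_lt_succ hi).eq_or_lt with rfl | h1
    exacts [h4, ih (h3.1 h4) h1]

theorem al_spec {B f d n i : ℕ} {Q : ℕ → Bool} (h : al B Q f d n = true) (hi : i < 2 ^ d * f)
    (hB : n + 2 * i + 1 ≤ B) : Q (n + 2 * i + 1) = true := by
  induction d generalizing n i with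
  | zero => exact ln_spec (((br _ _ _).1 h).2 (by rw [Nat.ble_eq]; omega)) (by omega)
  | succ d ih =>
    have h3 := (br _ _ _).1 (((br _ _ _).1 h).2 (by rw [Nat.ble_eq]; omega))
    have h4 : al B Q f d n = true := by_contra fun h => absurd (h3.2 h) (by decide)
    rcases lt_or_ge i (2 ^ d * f) with h5 | h5
    · exact ih h4 h5 hB
    · obtain ⟨j, rfl⟩ := Nat.exists_eq_add_of_le h5
      have e : n + 2 * (2 ^ d * f + j) + 1 = n + 2 ^ d * (2 * f) + 2 * j + 1 := by ring
      rw [e] at hB ⊢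
      exact ih (h3.1 h4) (by rw [pow_succ, mul_right_comm] at hi; omega) hB

theorem fb_spec {P : ℕ → Bool} {f n b : ℕ} (h1 : n ≤ b) (h2 : P b = true) : fb P f n ≤ b := by
  induction f generalizing n with
  | zero => exact h1
  | succ f ih =>
    show @Bool.rec (fun _ => ℕ) (fb P f (n + 1)) n (P n) ≤ b
    by_cases h : P n = true
    · rwa [br_pos h]
    · rw [br_neg h]
      exact ih (h1.lt_of_ne fun e => h (e ▸ h2))

theorem pr_spec {d n m : ℕ} (h1 : n ≤ m) (h2 : m < n + 2 ^ d) : m ∣ pr d n := by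
  induction d generalizing n with
  | zero =>
    obtain rfl : m = n := by omega
    exact dvd_rfl
  | succ d ih =>
    show m ∣ pr d n * pr d (n + 2 ^ d)
    rcases lt_or_ge m (n + 2 ^ d) with h5 | h5
    · exact (ih h1 h5).mul_right _
    · exact (ih h5 (by rw [pow_succ] at h2; omega)).mul_left _

theorem pr_lt {d n l : ℕ} (hl : l.Prime) (hn : 1 ≤ n) (h : l ∣ pr d n) : l < n + 2 ^ d := by
  induction d generalizing n with
  | zero => exact Nat.lt_succ_of_le (Nat.le_of_dvd hn h)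
  | succ d ih =>
    rw [pow_succ]
    rcases hl.dvd_mul.1 (show l ∣ pr d n * pr d (n + 2 ^ d) from h) with h | h
    · have := ih hn h
      omega
    · have := ih (hn.trans (Nat.le_add_right _ _)) h
      omega

theorem mf_spec {T q d n : ℕ} (hq : 1 < q) (hT : q ∣ T) (hm : ∀ l, l.Prime → l ∣ T → q ≤ l)
    (hn : 1 ≤ n) (h1 : n ≤ q) (h2 : q < n + 2 ^ d) : mf T d n = q := by
  induction d generalizing n with
  | zero => exact (by omega : n = q)
  | succ d ih =>
    show @Bool.rec (fun _ => ℕ) (mf T d n) (mf T d (n + 2 ^ d)) ((T.gcd (pr d n)).beq 1) = q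
    by_cases h : (T.gcd (pr d n)).beq 1 = true
    · rw [br_pos h]
      refine ih (by omega) (not_lt.1 fun h3 => ?_) (by rw [pow_succ] at h2; omega)
      have := Nat.le_of_dvd one_pos (Nat.eq_of_beq_eq_true h ▸ Nat.dvd_gcd hT (pr_spec h1 h3))
      omega
    · rw [br_neg h]
      obtain ⟨l, hl, h3⟩ := Nat.exists_prime_and_dvd fun e => h (by rw [Nat.beq_eq]; exact e)
      exact ih hn h1 ((hm l hl (h3.trans (Nat.gcd_dvd_left _ _))).trans_lt
        (pr_lt hl hn (h3.trans (Nat.gcd_dvd_right _ _))))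

theorem lc_succ (n : ℕ) : lc (n + 1) = Nat.lcm (lc n) (n + 1) := rfl

theorem lc_dvd {c n : ℕ} (h1 : c ≤ n) : c + 1 ∣ lc (n + 1) := by
  induction h1 with
  | refl => exact Nat.dvd_lcm_right _ _
  | step _ ih => exact ih.trans (Nat.dvd_lcm_left _ _)

theorem lc_fac (n : ℕ) : lc n ∣ n.factorial := by
  induction n with
  | zero => exact dvd_rfl
  | succ n ih => exact Nat.lcm_dvd (ih.mul_left _) (Dvd.intro _ rfl)

theorem pow_mono {x N : ℕ} (hx : 1 ≤ x) (m : ℕ) (h : (x.pow (m + 1)).ble N = true) :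
    (x.pow m).ble N = true := by
  rw [Nat.ble_eq] at h ⊢
  exact (Nat.pow_le_pow_right hx (Nat.le_succ m)).trans h

theorem pred_mono {x N : ℕ} (hx : 1 ≤ x) (m : ℕ) (h : (x.pow (m + 1).pred).ble N = true) :
    (x.pow m.pred).ble N = true := by
  rw [Nat.ble_eq] at h ⊢
  exact (Nat.pow_le_pow_right hx (Nat.pred_le_pred (Nat.le_succ m))).trans h

theorem roots_spec {N lo r t : ℕ} {f : ℕ → Bool} (h : roots N lo f = true) (h1 : 1 ≤ lo)
    (h2 : lo ≤ r) (h3 : N ≠ 1) (h4 : N = r ^ t) : f r = true := by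
  rw [roots, br] at h
  have h0 : f N = true := by_contra fun h' => absurd (h.2 h') (by decide)
  rcases t with _ | _ | t
  · exact absurd h4 h3
  · rw [zero_add, pow_one] at h4
    exact h4 ▸ h0
  · have h5 := lp_spec (fun m => pow_mono h1 (m + 1)) (h.1 h0) (t + 1) (by omega)
      (by rw [Nat.ble_eq, h4]; exact Nat.pow_le_pow_left h2 _)
    generalize nw N (t + 1) = s at h5
    simp only [rt, br, Nat.ble_eq, Nat.beq_eq, Nat.pow_eq, Nat.succ_eq_add_one,
      Bool.false_eq_true, imp_false, not_le] at h5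
    have h6 := h5.2 h5.1
    rw [h4] at h5 h6
    have h7 := (Nat.pow_le_pow_iff_left (by omega)).1 (not_lt.1 h6.2)
    have h8 := (Nat.pow_lt_pow_iff_left (by omega)).1 h5.1
    obtain rfl : s = r := by omega
    exact (h6.1 le_rfl).1 rfl

theorem ok_spec {p : ℕ} (hp : p.Prime) : ok p = true := by
  simp only [ok, br, Nat.ble_eq, Nat.beq_eq]
  refine ⟨fun _ => trivial, fun h => ?_⟩
  have h1 := ((Nat.dvd_prime hp).1 (Nat.gcd_dvd_left p 223092870)).resolve_left h
  exact ⟨fun _ => h1, fun h2 => absurd (hp.dvd_factorial.1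
    ((h1 ▸ Nat.gcd_dvd_right p 223092870 : p ∣ 223092870).trans
      (by decide : 223092870 ∣ Nat.factorial 23))) h2⟩

theorem sg'_eq {p : ℕ} (hp : 2 ≤ p) (e : ℕ) : sg' p e = sg p e := sg_eq hp e

theorem sg_pos (p e : ℕ) : 0 < sg p e := by rw [sg, sum_range_succ']; simp

theorem strip {s M x : ℕ} (hs : 0 < s) (h : s ∣ M * x) : st s M ∣ x := by
  have g0 := Nat.gcd_pos_of_pos_left M hs
  refine (Nat.coprime_div_gcd_div_gcd g0).dvd_of_dvd_mul_left (Nat.dvd_of_mul_dvd_mul_left g0 ?_)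
  rwa [← mul_assoc, Nat.mul_div_cancel' (Nat.gcd_dvd_left _ _),
    Nat.mul_div_cancel' (Nat.gcd_dvd_right _ _)]

theorem of_strip {s M : ℕ} (h : st s M = 1) : s ∣ M := by
  change s / s.gcd M = 1 at h
  have h1 := Nat.mul_div_cancel' (Nat.gcd_dvd_left s M)
  rw [h, mul_one] at h1
  exact h1 ▸ Nat.gcd_dvd_right s M

theorem lt_lg (N : ℕ) : N < 2 ^ (lg N + 1) := by
  rw [lg, lg']
  by_cases h : (Nat.pow 2 (lh N).succ).ble N = true
  · rw [br_pos h]
    exact Nat.lt_two_pow_self.trans (Nat.pow_lt_pow_right one_lt_two N.lt_succ_self)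
  · rw [br_neg h]
    exact not_le.1 (by rwa [Nat.ble_eq] at h)

theorem le_log {q k e N : ℕ} (hk : 1 ≤ k) (h1 : 2 ^ k ≤ q) (h2 : q ^ e ≤ N) : e ≤ lg N / k := by
  have h3 : 2 ^ (e * k) ≤ N := by
    rw [mul_comm, pow_mul]; exact (Nat.pow_le_pow_left h1 e).trans h2
  rw [Nat.le_div_iff_mul_le hk]
  exact Nat.le_of_lt_succ ((Nat.pow_lt_pow_iff_right one_lt_two).1 (h3.trans_lt (lt_lg N)))

theorem sg_succ (p e : ℕ) : sg p (e + 1) = sg p e + p ^ (e + 1) := sum_range_succ _ _

theorem sg_le (q b : ℕ) : sg q b ≤ (q + 1) ^ b := by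
  induction b with
  | zero => simp [sg]
  | succ b ih =>
    have := Nat.mul_le_mul_right q (Nat.pow_le_pow_left (Nat.le_succ q) b)
    rw [sg_succ, pow_succ, pow_succ, mul_add_one]
    exact (Nat.add_le_add ih this).trans_eq (add_comm _ _)

theorem sg_two {q : ℕ} (hq : 2 ≤ q) (b : ℕ) : sg q b ≤ 2 * q ^ b := by
  induction b with
  | zero => simp [sg]
  | succ b ih =>
    have := Nat.mul_le_mul_left (q ^ b) hq
    rw [sg_succ, pow_succ]
    omega

theorem geo_two (x m : ℕ) : ∑ i ∈ range (2 * m), x ^ i = (x + 1) * ∑ i ∈ range m, (x ^ 2) ^ i := by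
  induction m with
  | zero => simp
  | succ m ih =>
    rw [mul_add, mul_one, sum_range_succ, sum_range_succ, ih, sum_range_succ, ← pow_mul]
    ring

theorem two_geo (j : ℕ) : ∀ x m : ℕ, Odd x → 2 ^ j ∣ m → 2 ^ j ∣ ∑ i ∈ range m, x ^ i := by
  induction j with
  | zero => simp
  | succ j ih =>
    rintro x _ hx ⟨m, rfl⟩
    rw [pow_succ', mul_assoc, geo_two]
    exact Nat.mul_dvd_mul hx.add_one.two_dvd (ih _ _ hx.pow (Dvd.intro _ rfl))

theorem par_spec {x y z a b c : ℕ} (hx : Odd x) (hy : Odd y) (hz : Odd z)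
    (hd : sg x a * sg y b * sg z c ∣ x ^ a * y ^ b * z ^ c * ((a + 1) * (b + 1) * (c + 1))) :
    ¬par x a = true := by
  simp only [par, br, Nat.beq_eq, mod_eq, Bool.false_eq_true, imp_false, not_not]
  rintro ⟨h0, h2⟩
  have h1 := h0 h2
  obtain ⟨i, A, hA, e1⟩ := Nat.exists_eq_two_pow_mul_odd (n := a / 2 + 1) (by omega)
  obtain ⟨j, B, hB, e2⟩ := Nat.exists_eq_two_pow_mul_odd (n := b + 1) (by omega)
  obtain ⟨k, C, hC, e3⟩ := Nat.exists_eq_two_pow_mul_odd (n := c + 1) (by omega)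
  have e4 : a + 1 = 2 * (a / 2 + 1) := by omega
  have d1 : 4 * 2 ^ i ∣ sg x a := by
    rw [sg, e4, geo_two]
    exact Nat.mul_dvd_mul (by omega) (two_geo i _ _ hx.pow ⟨_, e1⟩)
  have d2 := (Nat.mul_dvd_mul (Nat.mul_dvd_mul d1 (two_geo j _ _ hy ⟨_, e2⟩))
    (two_geo k _ _ hz ⟨_, e3⟩)).trans hd
  have d3 : 2 * 2 ^ i * 2 ^ j * 2 ^ k * 2 ∣
      2 * 2 ^ i * 2 ^ j * 2 ^ k * (x ^ a * y ^ b * z ^ c * (A * B * C)) := by
    have e5 : (a + 1) * (b + 1) * (c + 1) = 2 * (2 ^ i * A) * (2 ^ j * B) * (2 ^ k * C) := by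
      rw [e4, e1, e2, e3]
    rw [e5] at d2
    exact (dvd_of_eq (by ring)).trans (d2.trans (dvd_of_eq (by ring)))
  exact Nat.not_even_iff_odd.2 (((hx.pow.mul hy.pow).mul hz.pow).mul ((hA.mul hB).mul hC))
    (even_iff_two_dvd.2 (Nat.dvd_of_mul_dvd_mul_left (by positivity) d3))

end Pool.Agent.Lib.MP_6adcb2_nt.O
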